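import Mathlib.Analysis.SpecialFunctions.Trigonometric.Chebyshev.Extremal
import Mathlib.Analysis.SpecialFunctions.Trigonometric.Series
import Mathlib.Analysis.SpecialFunctions.Arcosh
import Mathlib.Analysis.Complex.ExponentialBounds
import Mathlib.Analysis.SpecialFunctions.Exp

/-!
# Polynomials of small degree do not jump near the end of an interval
-/

set_option autoImplicit false

open Polynomial

namespace Pool.Agent.Q202.AR

theorem sq_le_cosh (t : ℝ) : 1 + t ^ 2 / 2 ≤ Real.cosh t := by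
  have h1 : Real.cosh t = 1 + 2 * Real.sinh (t / 2) ^ 2 := by
    have h := Real.cosh_two_mul (t / 2)
    have h2 := Real.cosh_sq (t / 2)
    rw [show 2 * (t / 2) = t by ring] at h
    rw [h, h2]
    ring
  have h2 : (t / 2) ^ 2 ≤ Real.sinh (t / 2) ^ 2 := by
    rcases le_total 0 t with h | h
    · exact pow_le_pow_left₀ (by positivity) (Real.self_le_sinh_iff.2 (by positivity)) 2
    · have h3 := Real.sinh_le_self_iff.2 (show t / 2 ≤ 0 by linarith)
      nlinarith
  rw [h1]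
  nlinarith

theorem cheb_le {n : ℕ} {x : ℝ} (hx : 1 ≤ x) :
    (Chebyshev.T ℝ n).eval x ≤ Real.exp (n ^ 2 * (x - 1)) := by
  obtain ⟨t, rfl⟩ : ∃ t, x = Real.cosh t := ⟨Real.arcosh x, (Real.cosh_arcosh hx).symm⟩
  rw [Chebyshev.T_real_cosh]
  refine (Real.cosh_le_exp_half_sq _).trans (Real.exp_le_exp.2 ?_)
  have h1 := sq_le_cosh t
  have h2 : (0 : ℝ) ≤ (n : ℝ) ^ 2 := by positivity
  push_cast
  nlinarith

/-- A polynomial between two values on an interval. -/
theorem jump {n : ℕ} {P : ℝ[X]} (hP : P.natDegree ≤ n) {a b lo hi x : ℝ} (hab : a < b) (hx : x ≤ a)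
    (hlh : lo < hi) (h : ∀ θ, a ≤ θ → θ ≤ b → lo ≤ P.eval θ ∧ P.eval θ ≤ hi) :
    (lo + hi) / 2 - P.eval x ≤ (hi - lo) / 2 * Real.exp (n ^ 2 * (2 * (a - x) / (b - a))) := by
  obtain ⟨Q, hQ⟩ : ∃ Q : ℝ[X], Q = C (2 / (hi - lo)) * (C ((lo + hi) / 2) -
    P.comp (C ((a + b) / 2) - C ((b - a) / 2) * X)) := ⟨_, rfl⟩
  have hev : ∀ s, Q.eval s = 2 / (hi - lo) * ((lo + hi) / 2 -
      P.eval ((a + b) / 2 - (b - a) / 2 * s)) := by
    intro s
    rw [hQ]
    simp [eval_comp]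
  have hd : Q.natDegree ≤ n := by
    rw [hQ]
    refine (natDegree_C_mul_le _ _).trans ((natDegree_sub_le _ _).trans ?_)
    rw [natDegree_C, max_eq_right (Nat.zero_le _)]
    refine natDegree_comp_le.trans ?_
    have h1 : (C ((a + b) / 2) - C ((b - a) / 2) * X : ℝ[X]).natDegree ≤ 1 := by
      refine (natDegree_sub_le _ _).trans ?_
      rw [natDegree_C, max_eq_right (Nat.zero_le _)]
      exact (natDegree_C_mul_le _ _).trans natDegree_X_le
    calc P.natDegree * _ ≤ P.natDegree * 1 := Nat.mul_le_mul_left _ h1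
      _ ≤ n := by rw [mul_one]; exact hP
  have hpos : 0 < hi - lo := by linarith
  have hpos' : 0 < b - a := by linarith
  have hb : ∀ s ∈ Set.Icc (-1 : ℝ) 1, |Q.eval s| ≤ 1 := by
    rintro s ⟨hs1, hs2⟩
    rw [hev]
    obtain ⟨h1, h2⟩ := h ((a + b) / 2 - (b - a) / 2 * s) (by nlinarith) (by nlinarith)
    rw [abs_le, div_mul_eq_mul_div, le_div_iff₀ hpos, div_le_iff₀ hpos]
    constructor <;> linarith
  have hx0 : 0 ≤ 2 * (a - x) / (b - a) := div_nonneg (by linarith) hpos'.le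
  have h1 := Chebyshev.eval_iterate_derivative_le_of_forall_abs_le_one (n := n) (P := Q) (k := 0)
    (x := 1 + 2 * (a - x) / (b - a)) (by linarith) (natDegree_le_iff_degree_le.1 hd) hb
  have h2 : (a + b) / 2 - (b - a) / 2 * (1 + 2 * (a - x) / (b - a)) = x := by
    field_simp
    ring
  have h3 : Q.eval (1 + 2 * (a - x) / (b - a)) ≤
      Real.exp (n ^ 2 * (2 * (a - x) / (b - a))) := by
    refine (h1.trans (cheb_le (by linarith))).trans (le_of_eq ?_)
    congr 1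
    ring
  rw [hev, h2, div_mul_eq_mul_div, div_le_iff₀ hpos] at h3
  linarith

theorem exp_half_lt : Real.exp (1 / 2) < 1.65 := by
  have h1 : Real.exp (1 / 2) ^ 2 = Real.exp 1 := by
    rw [← Real.exp_nat_mul]
    norm_num
  have h2 := Real.exp_one_lt_d9
  have h3 := Real.exp_pos (1 / 2)
  nlinarith

theorem exp_three : Real.exp (-3) ≤ 1 / 16 := by
  have h1 : Real.exp 3 = Real.exp 1 ^ 3 := by
    rw [← Real.exp_nat_mul]
    norm_num
  have h2 := Real.exp_one_gt_d9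
  have h3 : (16 : ℝ) ≤ Real.exp 3 := by
    rw [h1]
    calc (16 : ℝ) ≤ 2.7 ^ 3 := by norm_num
      _ ≤ _ := pow_le_pow_left₀ (by norm_num) (by linarith) 3
  rw [Real.exp_neg, one_div]
  exact inv_anti₀ (by norm_num) h3

/-- A function with a short power series is not like this. -/
theorem no_poly {u d : ℕ} (a : ℕ → ℝ) {B : ℝ} (hB : ∑ s ∈ Finset.range (u + 1), |a s| ≤ B)
    (hd : 243 * B ≤ 3 ^ (d + 1)) (hd3 : 3 ≤ d) (hu : 100 * d ^ 2 ≤ u) {F : ℝ → ℝ}
    (hF : ∀ θ, F θ = ∑ s ∈ Finset.range (u + 1), a s * θ ^ s)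
    (h0 : F (-(1 / 3)) ≤ 1 / 3) (h1 : ∀ θ : ℝ, -(1 / 3) ≤ θ → θ ≤ 1 / 3 → F θ ≤ 1)
    (h2 : ∀ θ : ℝ, -(1 / 3) + 16 / (u : ℝ) ≤ θ → θ ≤ 1 / 3 → 65 / 128 ≤ F θ) : False := by
  obtain ⟨P, hP⟩ : ∃ P : ℝ[X], P = ∑ s ∈ Finset.range (d + 1), C (a s) * X ^ s := ⟨_, rfl⟩
  have hev : ∀ θ, P.eval θ = ∑ s ∈ Finset.range (d + 1), a s * θ ^ s := by
    intro θ
    rw [hP, eval_finsetSum]
    exact Finset.sum_congr rfl fun s _ => by simp
  have hdeg : P.natDegree ≤ d := by
    rw [hP]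
    refine natDegree_sum_le_of_forall_le _ _ fun s hs => ?_
    rw [Finset.mem_range] at hs
    exact (natDegree_C_mul_X_pow_le _ _).trans (by omega)
  have hdu : d + 1 ≤ u + 1 := by nlinarith
  have hu9 : (900 : ℝ) ≤ u := by
    have : 900 ≤ u := by nlinarith
    exact_mod_cast this
  have hud : 100 * (d : ℝ) ^ 2 ≤ u := by exact_mod_cast hu
  have hd3' : (3 : ℝ) ≤ d := by exact_mod_cast hd3
  have htail : ∀ θ, |θ| ≤ 1 / 3 → |F θ - P.eval θ| ≤ 1 / 243 := by
    intro θ hθ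
    rw [hF, hev, ← Finset.sum_range_add_sum_Ico _ hdu, add_sub_cancel_left]
    calc |∑ s ∈ Finset.Ico (d + 1) (u + 1), a s * θ ^ s| ≤
        ∑ s ∈ Finset.Ico (d + 1) (u + 1), |a s * θ ^ s| := Finset.abs_sum_le_sum_abs _ _
      _ ≤ ∑ s ∈ Finset.Ico (d + 1) (u + 1), |a s| * (1 / 3) ^ (d + 1) := by
          refine Finset.sum_le_sum fun s hs => ?_
          rw [Finset.mem_Ico] at hs
          rw [abs_mul, abs_pow]
          refine mul_le_mul_of_nonneg_left ?_ (abs_nonneg _)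
          exact (pow_le_pow_left₀ (abs_nonneg _) hθ s).trans
            (pow_le_pow_of_le_one (by norm_num) (by norm_num) hs.1)
      _ ≤ ∑ s ∈ Finset.range (u + 1), |a s| * (1 / 3) ^ (d + 1) := by
          refine Finset.sum_le_sum_of_subset_of_nonneg (fun s hs => ?_) fun s _ _ => by positivity
          rw [Finset.mem_Ico] at hs
          exact Finset.mem_range.2 hs.2
      _ ≤ B * (1 / 3) ^ (d + 1) := by
          rw [← Finset.sum_mul]
          exact mul_le_mul_of_nonneg_right hB (by positivity)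
      _ ≤ 1 / 243 := by
          rw [one_div_pow, mul_one_div, div_le_div_iff₀ (by positivity) (by norm_num)]
          linarith
  have hη : (0 : ℝ) ≤ 16 / u := by positivity
  have hη' : 16 / (u : ℝ) ≤ 16 / 900 := div_le_div_of_nonneg_left (by norm_num) (by norm_num) hu9
  have hab : -(1 / 3) + 16 / (u : ℝ) < 1 / 3 := by linarith
  have hj := jump hdeg (lo := 65 / 128 - 1 / 243) (hi := 1 + 1 / 243) hab
    (show -(1 / 3) ≤ -(1 / 3) + 16 / (u : ℝ) by linarith) (by norm_num) (by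
      intro θ hθ1 hθ2
      have h3 := abs_le.1 (htail θ (abs_le.2 ⟨by linarith, hθ2⟩))
      have h4 := h1 θ (by linarith) hθ2
      have h5 := h2 θ hθ1 hθ2
      constructor <;> linarith [h3.1, h3.2])
  have h6 := abs_le.1 (htail (-(1 / 3)) (by
    rw [abs_neg, abs_of_nonneg]
    norm_num))
  have h7 : (d : ℝ) ^ 2 * (2 * (-(1 / 3) + 16 / (u : ℝ) - -(1 / 3)) /
      (1 / 3 - (-(1 / 3) + 16 / (u : ℝ)))) ≤ 1 / 2 := by
    have hu0 : (0 : ℝ) < u := by linarith
    have e1 : 2 * (-(1 / 3) + 16 / (u : ℝ) - -(1 / 3)) /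
        (1 / 3 - (-(1 / 3) + 16 / (u : ℝ))) = 48 / (u - 24) := by
      have : (u : ℝ) - 24 ≠ 0 := by linarith
      have h9 : 1 / 3 - (-(1 / 3) + 16 / (u : ℝ)) = 2 * (u - 24) / (3 * u) := by
        field_simp
        ring
      rw [h9]
      field_simp
      ring
    rw [e1, mul_div_assoc', div_le_iff₀ (by linarith)]
    nlinarith
  have h8 := (Real.exp_le_exp.2 h7).trans exp_half_lt.le
  have h9 : (0 : ℝ) < (1 + 1 / 243 - (65 / 128 - 1 / 243)) / 2 := by norm_num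
  have h10 := mul_le_mul_of_nonneg_left h8 h9.le
  have h11 : P.eval (-(1 / 3)) ≤ 1 / 3 + 1 / 243 := by linarith [h6.1]
  norm_num at *
  linarith

end Pool.Agent.Q202.AR
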