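import Mathlib.Algebra.BigOperators.Ring.Finset
import Mathlib.Algebra.BigOperators.Fin
import Mathlib.Algebra.Order.BigOperators.Ring.Finset
import Mathlib.Data.Fintype.BigOperators
import Mathlib.Data.Fintype.Pi
import Mathlib.Data.Real.Basic
import Mathlib.Tactic.Linarith
import Mathlib.Tactic.FinCases
import Mathlib.Tactic.NormNum

/-!
# Signed sums of the projections of a product space
-/

set_option autoImplicit false

open Finset

namespace Pool.Agent.Q202.AR

variable {u : ℕ}

/-- Four times the projection to the functions of mean zero on four points. -/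
def q (a b : Fin 4) : ℝ := (if a = b then 4 else 0) - 1

/-- The product over the coordinates in `S`. -/
def T (S : Finset (Fin u)) (x y : Fin u → Fin 4) : ℝ := ∏ i ∈ S, q (x i) (y i)

/-- The signed sum. -/
noncomputable def D (e : ℕ → ℝ) (x y : Fin u → Fin 4) : ℝ :=
  ∑ S : Finset (Fin u), e S.card * T S x y

theorem q_comm (a b : Fin 4) : q a b = q b a := by
  unfold q
  by_cases h : a = b
  · rw [if_pos h, if_pos h.symm]
  · rw [if_neg h, if_neg (Ne.symm h)]

theorem sum_q (a : Fin 4) : ∑ b, q a b = 0 := by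
  unfold q
  rw [sum_sub_distrib, sum_ite_eq, if_pos (mem_univ _), sum_const, card_univ, Fintype.card_fin]
  norm_num

theorem sum_q_q (a c : Fin 4) : ∑ b, q a b * q c b = 4 * q a c := by
  have h1 : ∀ b, q a b * q c b = (if a = b then 4 * q c b else 0) - q c b := by
    intro b
    have h2 : q a b = (if a = b then 4 else 0) - 1 := rfl
    rw [h2]
    by_cases h : a = b
    · rw [if_pos h, if_pos h]
      ring
    · rw [if_neg h, if_neg h]
      ring
  rw [sum_congr rfl fun b _ => h1 b, sum_sub_distrib, sum_ite_eq, if_pos (mem_univ _), sum_q,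
    sub_zero, q_comm]

theorem T_eq (S : Finset (Fin u)) (x y : Fin u → Fin 4) :
    T S x y = ∏ i, if i ∈ S then q (x i) (y i) else 1 := by
  unfold T
  rw [prod_ite_mem, univ_inter]

theorem T_comm (S : Finset (Fin u)) (x y : Fin u → Fin 4) : T S x y = T S y x :=
  prod_congr rfl fun _ _ => q_comm _ _

theorem D_comm (e : ℕ → ℝ) (x y : Fin u → Fin 4) : D e x y = D e y x :=
  sum_congr rfl fun S _ => by rw [T_comm]

theorem sum_prod (g : Fin u → Fin 4 → ℝ) :
    ∑ y : Fin u → Fin 4, ∏ i, g i (y i) = ∏ i, ∑ b, g i b := by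
  rw [prod_univ_sum, Fintype.piFinset_univ]

theorem sum_sum_prod (g : Fin u → Fin 4 → Fin 4 → ℝ) :
    ∑ x : Fin u → Fin 4, ∑ y : Fin u → Fin 4, ∏ i, g i (x i) (y i) =
      ∏ i, ∑ a, ∑ b, g i a b := by
  rw [← sum_prod fun i a => ∑ b, g i a b]
  exact sum_congr rfl fun x _ => sum_prod fun i => g i (x i)

theorem sum_T_T (S S' : Finset (Fin u)) (x z : Fin u → Fin 4) :
    ∑ y, T S x y * T S' z y = if S = S' then 4 ^ u * T S x z else 0 := by
  have h1 : ∑ y, T S x y * T S' z y = ∏ i, ∑ b, (if i ∈ S then q (x i) b else 1) *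
      (if i ∈ S' then q (z i) b else 1) := by
    rw [← sum_prod]
    refine sum_congr rfl fun y _ => ?_
    rw [T_eq, T_eq, prod_mul_distrib]
  rw [h1]
  by_cases h : S = S'
  · rw [if_pos h, ← h, T_eq]
    have h2 : (4 : ℝ) ^ u = ∏ _i : Fin u, (4 : ℝ) := by
      rw [prod_const, card_univ, Fintype.card_fin]
    rw [h2, ← prod_mul_distrib]
    refine prod_congr rfl fun i _ => ?_
    by_cases hi : i ∈ S
    · simp only [if_pos hi]
      exact sum_q_q _ _
    · simp only [if_neg hi]
      norm_num
  · rw [if_neg h]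
    have h2 : ∃ i, ¬ (i ∈ S ↔ i ∈ S') := by
      by_contra hcon
      push Not at hcon
      exact h (Finset.ext hcon)
    obtain ⟨i, hi⟩ := h2
    refine prod_eq_zero (mem_univ i) ?_
    by_cases h3 : i ∈ S
    · have h4 : i ∉ S' := fun h4 => hi ⟨fun _ => h4, fun _ => h3⟩
      simp only [if_pos h3, if_neg h4, mul_one]
      exact sum_q _
    · have h4 : i ∈ S' := by
        by_contra h4
        exact hi ⟨fun h => absurd h h3, fun h => absurd h h4⟩
      simp only [if_neg h3, if_pos h4, one_mul]
      exact sum_q _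

theorem sum_pow_T (θ : ℝ) (x y : Fin u → Fin 4) :
    ∏ i, (1 + θ * q (x i) (y i)) = ∑ S : Finset (Fin u), θ ^ S.card * T S x y := by
  rw [prod_one_add, powerset_univ]
  refine sum_congr rfl fun S _ => ?_
  rw [prod_mul_distrib, prod_const]
  rfl

theorem sum_T_all (x z : Fin u → Fin 4) :
    ∑ S : Finset (Fin u), T S x z = if x = z then 4 ^ u else 0 := by
  have h1 := sum_pow_T 1 x z
  simp only [one_pow, one_mul] at h1
  rw [← h1]
  by_cases h : x = z
  · rw [if_pos h, h]
    have h2 : (4 : ℝ) ^ u = ∏ _i : Fin u, (4 : ℝ) := by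
      rw [prod_const, card_univ, Fintype.card_fin]
    rw [h2]
    refine prod_congr rfl fun i _ => ?_
    unfold q
    rw [if_pos rfl]
    norm_num
  · rw [if_neg h]
    obtain ⟨i, hi⟩ := Function.ne_iff.1 h
    refine prod_eq_zero (mem_univ i) ?_
    unfold q
    rw [if_neg hi]
    norm_num

theorem D_orth {e : ℕ → ℝ} (he : ∀ s, e s ^ 2 = 1) (x z : Fin u → Fin 4) :
    ∑ y, D e y x * D e y z = if x = z then 16 ^ u else 0 := by
  have h1 : ∀ y, D e y x * D e y z = ∑ S : Finset (Fin u), ∑ S' : Finset (Fin u),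
      (e S.card * e S'.card) * (T S x y * T S' z y) := by
    intro y
    rw [D_comm e y x, D_comm e y z]
    unfold D
    rw [sum_mul_sum]
    exact sum_congr rfl fun S _ => sum_congr rfl fun S' _ => by ring
  rw [sum_congr rfl fun y _ => h1 y, sum_comm]
  have h2 : ∀ S : Finset (Fin u), ∑ y, ∑ S' : Finset (Fin u),
      (e S.card * e S'.card) * (T S x y * T S' z y) = 4 ^ u * T S x z := by
    intro S
    rw [sum_comm]
    have h3 : ∀ S' : Finset (Fin u), ∑ y, (e S.card * e S'.card) * (T S x y * T S' z y) =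
        if S = S' then 4 ^ u * T S x z else 0 := by
      intro S'
      rw [← mul_sum, sum_T_T]
      by_cases h : S = S'
      · rw [if_pos h, ← h, ← sq, he, one_mul]
      · rw [if_neg h, mul_zero]
    rw [sum_congr rfl fun S' _ => h3 S', sum_ite_eq, if_pos (mem_univ _)]
  rw [sum_congr rfl fun S _ => h2 S, ← mul_sum, sum_T_all]
  by_cases h : x = z
  · rw [if_pos h, if_pos h, ← mul_pow]
    norm_num
  · rw [if_neg h, if_neg h, mul_zero]

end Pool.Agent.Q202.AR
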