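import Mathlib.Analysis.InnerProductSpace.PiL2
import Mathlib.Algebra.BigOperators.Ring.Finset
import Mathlib.Algebra.Order.BigOperators.Ring.Finset
import Mathlib.LinearAlgebra.Dimension.Constructions

/-!
# Bounded matrices of small rank have a small inner product with orthogonal matrices
-/

set_option autoImplicit false

open Finset

namespace Pool.Agent.Q202.AR

open Classical in
theorem trace_bound {X ι : Type} [Fintype X] [Fintype ι] (D A : X → X → ℝ) {c : ℝ} (hc : 0 ≤ c)
    (hD : ∀ y, ∑ x, D x y * D x y = c) (hD' : ∀ y z, y ≠ z → ∑ x, D x y * D x z = 0)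
    (G : ι → X → ℝ)
    (hG : ∀ x, A x ∈ Submodule.span ℝ (Set.range G)) (hA : ∀ x y, A x y ^ 2 ≤ 1) :
    (∑ x, ∑ y, D x y * A x y) ^ 2 ≤ Fintype.card ι * c * (Fintype.card X : ℝ) ^ 2 := by
  obtain ⟨W, hW⟩ : ∃ W : Submodule ℝ (EuclideanSpace ℝ X),
    W = (Submodule.span ℝ (Set.range G)).map
      (WithLp.linearEquiv 2 ℝ (X → ℝ)).symm.toLinearMap := ⟨_, rfl⟩
  have hfin : Module.finrank ℝ W ≤ Fintype.card ι := by
    rw [hW]
    exact (Submodule.finrank_map_le _ _).trans (finrank_range_le_card G)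
  have hv : ∀ x, (WithLp.toLp 2 (A x) : EuclideanSpace ℝ X) ∈ W := by
    intro x
    rw [hW]
    exact Submodule.mem_map_of_mem (hG x)
  obtain ⟨b, -⟩ : ∃ b : OrthonormalBasis (Fin (Module.finrank ℝ W)) ℝ W, b = b :=
    ⟨stdOrthonormalBasis ℝ W, rfl⟩
  obtain ⟨v, hv'⟩ : ∃ v : X → W, v = fun x => ⟨WithLp.toLp 2 (A x), hv x⟩ := ⟨_, rfl⟩
  have h1 : ∀ x y, A x y = ∑ a, inner ℝ (b a) (v x) * (b a : EuclideanSpace ℝ X) y := by
    intro x y
    have h2 := congrArg (fun w : W => (w : EuclideanSpace ℝ X) y) (b.sum_repr' (v x))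
    have h3 : ((v x : W) : EuclideanSpace ℝ X) y = A x y := by rw [hv']
    rw [← h3]
    simp only [] at h2
    rw [← h2, Submodule.coe_sum, WithLp.ofLp_sum, Finset.sum_apply]
    refine sum_congr rfl fun a _ => ?_
    rw [Submodule.coe_smul, PiLp.smul_apply, smul_eq_mul]
  obtain ⟨E, hE⟩ : ∃ E : X → Fin (Module.finrank ℝ W) → ℝ,
    E = fun x a => ∑ y, D x y * (b a : EuclideanSpace ℝ X) y := ⟨_, rfl⟩
  have h2 : ∑ x, ∑ y, D x y * A x y = ∑ p : X × Fin (Module.finrank ℝ W),
      inner ℝ (b p.2) (v p.1) * E p.1 p.2 := by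
    rw [Fintype.sum_prod_type]
    refine sum_congr rfl fun x _ => ?_
    rw [hE]
    simp only [mul_sum]
    rw [sum_comm]
    refine sum_congr rfl fun y _ => ?_
    rw [h1 x y, mul_sum]
    exact sum_congr rfl fun a _ => by ring
  have h3 : ∑ p : X × Fin (Module.finrank ℝ W), inner ℝ (b p.2) (v p.1) ^ 2 ≤
      (Fintype.card X : ℝ) ^ 2 := by
    rw [Fintype.sum_prod_type]
    calc ∑ x, ∑ a, inner ℝ (b a) (v x) ^ 2 = ∑ x, ‖v x‖ ^ 2 :=
          sum_congr rfl fun x _ => b.sum_sq_inner_right (v x)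
      _ ≤ ∑ _x : X, (Fintype.card X : ℝ) := by
          refine sum_le_sum fun x _ => ?_
          have e1 : ‖v x‖ ^ 2 = ∑ y, A x y ^ 2 := by
            rw [hv', Submodule.coe_norm, EuclideanSpace.norm_sq_eq]
            exact sum_congr rfl fun y _ => by rw [Real.norm_eq_abs, sq_abs]
          rw [e1]
          calc ∑ y, A x y ^ 2 ≤ ∑ _y : X, (1 : ℝ) := sum_le_sum fun y _ => hA x y
            _ = _ := by rw [sum_const, card_univ, nsmul_eq_mul, mul_one]
      _ = _ := by rw [sum_const, card_univ, nsmul_eq_mul, sq]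
  have h4 : ∑ p : X × Fin (Module.finrank ℝ W), E p.1 p.2 ^ 2 ≤ Fintype.card ι * c := by
    rw [Fintype.sum_prod_type, sum_comm]
    calc ∑ a, ∑ x, E x a ^ 2 = ∑ _a : Fin (Module.finrank ℝ W), c := by
          refine sum_congr rfl fun a _ => ?_
          have e1 : ∀ x, E x a ^ 2 = ∑ y, ∑ z, (D x y * D x z) *
              ((b a : EuclideanSpace ℝ X) y * (b a : EuclideanSpace ℝ X) z) := by
            intro x
            rw [hE, sq, sum_mul_sum]
            exact sum_congr rfl fun y _ => sum_congr rfl fun z _ => by ring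
          have e2 : ∑ x, E x a ^ 2 = ∑ y, ∑ z, (∑ x, D x y * D x z) *
              ((b a : EuclideanSpace ℝ X) y * (b a : EuclideanSpace ℝ X) z) := by
            rw [sum_congr rfl fun x _ => e1 x, sum_comm]
            refine sum_congr rfl fun y _ => ?_
            rw [sum_comm]
            exact sum_congr rfl fun z _ => by rw [sum_mul]
          rw [e2]
          have e3 : ∑ y, ∑ z, (∑ x, D x y * D x z) *
              ((b a : EuclideanSpace ℝ X) y * (b a : EuclideanSpace ℝ X) z) =
              ∑ y, c * (b a : EuclideanSpace ℝ X) y ^ 2 := by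
            refine sum_congr rfl fun y _ => ?_
            rw [sum_eq_single y]
            · rw [hD]
              ring
            · intro z _ hz
              rw [hD' y z (Ne.symm hz), zero_mul]
            · intro h
              exact absurd (mem_univ _) h
          rw [e3, ← mul_sum]
          have e4 : ∑ y, (b a : EuclideanSpace ℝ X) y ^ 2 = 1 := by
            have e5 : ‖b a‖ = 1 := b.orthonormal.1 a
            rw [Submodule.coe_norm] at e5
            have e6 := EuclideanSpace.norm_sq_eq (b a : EuclideanSpace ℝ X)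
            rw [e5] at e6
            rw [← one_pow 2, e6]
            exact sum_congr rfl fun y _ => by rw [Real.norm_eq_abs, sq_abs]
          rw [e4, mul_one]
      _ = (Module.finrank ℝ W : ℝ) * c := by
          rw [sum_const, card_univ, Fintype.card_fin, nsmul_eq_mul]
      _ ≤ _ := mul_le_mul_of_nonneg_right (by exact_mod_cast hfin) hc
  rw [h2]
  refine (Finset.sum_mul_sq_le_sq_mul_sq _ _ _).trans ?_
  calc _ ≤ (Fintype.card X : ℝ) ^ 2 * (Fintype.card ι * c) :=
        mul_le_mul h3 h4 (sum_nonneg fun p _ => sq_nonneg _) (by positivity)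
    _ = _ := by ring

end Pool.Agent.Q202.AR
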