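import Pool.Agent.Q202.AR.Cheb
import Pool.Agent.Q202.AR.Ortho
import Pool.Agent.Q202.AR.Trace

/-!
# The approximate rank of set disjointness
-/

set_option autoImplicit false

open Finset

namespace Pool.Agent.Q202.AR

variable {u : ℕ}

/-- The set of a point. -/
def Z (x : Fin u → Fin 4) : Finset (Fin u) := univ.filter fun i => x i = 0

/-- The weight of a pair of points. -/
noncomputable def wt (θ : ℝ) (x y : Fin u → Fin 4) : ℝ := ∏ i, (1 + θ * q (x i) (y i))

theorem wt_nonneg {θ : ℝ} (h1 : -(1 / 3) ≤ θ) (h2 : θ ≤ 1 / 3) (x y : Fin u → Fin 4) :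
    0 ≤ wt θ x y := by
  refine prod_nonneg fun i _ => ?_
  unfold q
  by_cases h : x i = y i
  · rw [if_pos h]
    linarith
  · rw [if_neg h]
    linarith

theorem sum_q_sum (θ : ℝ) : ∑ a : Fin 4, ∑ b, (1 + θ * q a b) = 16 := by
  have h1 : ∀ a : Fin 4, ∑ b, (1 + θ * q a b) = 4 := by
    intro a
    rw [sum_add_distrib, ← mul_sum, sum_q, mul_zero, add_zero, sum_const, card_univ,
      Fintype.card_fin]
    norm_num
  rw [sum_congr rfl fun a _ => h1 a, sum_const, card_univ, Fintype.card_fin]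
  norm_num

theorem sum_wt (θ : ℝ) : ∑ x : Fin u → Fin 4, ∑ y, wt θ x y = 16 ^ u := by
  unfold wt
  rw [sum_sum_prod fun _ a b => 1 + θ * q a b, prod_congr rfl fun _ _ => sum_q_sum θ, prod_const,
    card_univ, Fintype.card_fin]

theorem sum_disj (θ : ℝ) : ∑ x : Fin u → Fin 4, ∑ y, (if Disjoint (Z x) (Z y) then wt θ x y
    else 0) = (15 - 3 * θ) ^ u := by
  have h1 : ∀ x y : Fin u → Fin 4, (if Disjoint (Z x) (Z y) then wt θ x y else 0) =
      ∏ i, (if x i = 0 ∧ y i = 0 then 0 else 1 + θ * q (x i) (y i)) := by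
    intro x y
    by_cases h : Disjoint (Z x) (Z y)
    · rw [if_pos h]
      refine prod_congr rfl fun i _ => ?_
      rw [if_neg]
      rintro ⟨h2, h3⟩
      exact disjoint_left.1 h (mem_filter.2 ⟨mem_univ i, h2⟩) (mem_filter.2 ⟨mem_univ i, h3⟩)
    · rw [if_neg h]
      rw [disjoint_left] at h
      push Not at h
      obtain ⟨i, h2, h3⟩ := h
      unfold Z at h2 h3
      rw [mem_filter] at h2 h3
      symm
      refine prod_eq_zero (mem_univ i) ?_
      rw [if_pos ⟨h2.2, h3.2⟩]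
  rw [sum_congr rfl fun x _ => sum_congr rfl fun y _ => h1 x y,
    sum_sum_prod fun _ a b => if a = 0 ∧ b = 0 then 0 else 1 + θ * q a b]
  have h2 : ∑ a : Fin 4, ∑ b : Fin 4, (if a = 0 ∧ b = 0 then 0 else 1 + θ * q a b) =
      15 - 3 * θ := by
    have h3 : ∀ a b : Fin 4, (if a = 0 ∧ b = 0 then 0 else 1 + θ * q a b) =
        (1 + θ * q a b) - (if a = 0 then (if b = 0 then 1 + 3 * θ else 0) else 0) := by
      intro a b
      by_cases ha : a = 0
      · by_cases hb : b = 0
        · rw [if_pos ⟨ha, hb⟩, if_pos ha, if_pos hb, ha, hb]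
          unfold q
          rw [if_pos rfl]
          ring
        · rw [if_neg (fun h => hb h.2), if_pos ha, if_neg hb, sub_zero]
      · rw [if_neg (fun h => ha h.1), if_neg ha, sub_zero]
    rw [sum_congr rfl fun a _ => sum_congr rfl fun b _ => h3 a b]
    simp only [sum_sub_distrib]
    have h4 := sum_q_sum θ
    rw [h4]
    have h5 : ∀ a : Fin 4, ∑ b : Fin 4, (if a = 0 then (if b = 0 then 1 + 3 * θ else 0) else 0) =
        if a = 0 then 1 + 3 * θ else 0 := by
      intro a
      by_cases ha : a = 0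
      · simp only [if_pos ha]
        rw [sum_ite_eq', if_pos (mem_univ _)]
      · simp only [if_neg ha]
        rw [sum_const_zero]
    rw [sum_congr rfl fun a _ => h5 a, sum_ite_eq', if_pos (mem_univ _)]
    ring
  rw [prod_congr rfl fun _ _ => h2, prod_const, card_univ, Fintype.card_fin]

/-- No bounded function whose products with the signed sums are small approximates disjointness. -/
theorem core {d : ℕ} {B : ℝ} (A : Finset (Fin u) → Finset (Fin u) → ℝ)
    (hA : ∀ e : ℕ → ℝ, (∀ s, e s ^ 2 = 1) →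
      ∑ x : Fin u → Fin 4, ∑ y, D e x y * A (Z x) (Z y) ≤ B * 16 ^ u)
    (h0 : ∀ x y, 0 ≤ A x y) (h1 : ∀ x y, A x y ≤ 1) (hdis : ∀ x y, Disjoint x y → A x y ≤ 1 / 3)
    (hint : ∀ x y, (x ∩ y).Nonempty → 13 / 24 ≤ A x y) (hB : 243 * B ≤ 3 ^ (d + 1)) (hd : 3 ≤ d)
    (hu : 100 * d ^ 2 ≤ u) : False := by
  have h16 : (0 : ℝ) < 16 ^ u := by positivity
  obtain ⟨t, ht⟩ : ∃ t : Finset (Fin u) → ℝ, t = fun S =>
    (∑ x : Fin u → Fin 4, ∑ y, T S x y * A (Z x) (Z y)) / 16 ^ u := ⟨_, rfl⟩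
  obtain ⟨a, ha⟩ : ∃ a : ℕ → ℝ, a = fun s =>
    ∑ S ∈ (univ : Finset (Finset (Fin u))).filter (fun S => S.card = s), t S := ⟨_, rfl⟩
  have hmaps : ∀ S ∈ (univ : Finset (Finset (Fin u))), S.card ∈ range (u + 1) := by
    intro S _
    have h3 := card_le_univ S
    rw [Fintype.card_fin] at h3
    exact mem_range.2 (by omega)
  have hfib : ∀ g : ℕ → ℝ, ∑ s ∈ range (u + 1), a s * g s =
      ∑ S : Finset (Fin u), g S.card * t S := by
    intro g
    rw [← sum_fiberwise_of_maps_to hmaps]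
    refine sum_congr rfl fun s _ => ?_
    rw [ha, sum_mul]
    refine sum_congr rfl fun S hS => ?_
    rw [(mem_filter.1 hS).2, mul_comm]
  have hswap : ∀ g : ℕ → ℝ, ∑ S : Finset (Fin u), g S.card * t S =
      (∑ x : Fin u → Fin 4, ∑ y, (∑ S : Finset (Fin u), g S.card * T S x y) * A (Z x) (Z y)) /
        16 ^ u := by
    intro g
    rw [ht]
    have e1 : ∀ S : Finset (Fin u), g S.card *
        ((∑ x : Fin u → Fin 4, ∑ y, T S x y * A (Z x) (Z y)) / 16 ^ u) =
        (∑ x : Fin u → Fin 4, ∑ y, g S.card * T S x y * A (Z x) (Z y)) / 16 ^ u := by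
      intro S
      rw [mul_div_assoc', mul_sum]
      congr 1
      refine sum_congr rfl fun x _ => ?_
      rw [mul_sum]
      exact sum_congr rfl fun y _ => by ring
    rw [sum_congr rfl fun S _ => e1 S, ← sum_div]
    congr 1
    rw [sum_comm]
    refine sum_congr rfl fun x _ => ?_
    rw [sum_comm]
    exact sum_congr rfl fun y _ => by rw [sum_mul]
  obtain ⟨F, hF⟩ : ∃ F : ℝ → ℝ, F = fun θ =>
    (∑ x : Fin u → Fin 4, ∑ y, wt θ x y * A (Z x) (Z y)) / 16 ^ u := ⟨_, rfl⟩
  have hFs : ∀ θ, F θ = ∑ s ∈ range (u + 1), a s * θ ^ s := by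
    intro θ
    rw [hfib (fun s => θ ^ s), hswap (fun s => θ ^ s), hF]
    show _ / _ = _ / _
    congr 1
    refine sum_congr rfl fun x _ => sum_congr rfl fun y _ => ?_
    unfold wt
    rw [sum_pow_T]
  have habs : ∑ s ∈ range (u + 1), |a s| ≤ B := by
    obtain ⟨e, he⟩ : ∃ e : ℕ → ℝ, e = fun s => if 0 ≤ a s then 1 else -1 := ⟨_, rfl⟩
    have h3 : ∀ s, |a s| = a s * e s := by
      intro s
      rw [he]
      by_cases h : 0 ≤ a s
      · simp only [if_pos h]
        rw [abs_of_nonneg h, mul_one]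
      · simp only [if_neg h]
        rw [abs_of_neg (not_le.1 h)]
        ring
    rw [sum_congr rfl fun s _ => h3 s, hfib e, hswap e, div_le_iff₀ h16]
    refine hA e fun s => ?_
    rw [he]
    by_cases h : 0 ≤ a s
    · simp only [if_pos h]
      norm_num
    · simp only [if_neg h]
      norm_num
  refine no_poly a habs hB hd hu hFs ?_ ?_ ?_
  · rw [hF]
    show _ / _ ≤ _
    rw [div_le_iff₀ h16, ← sum_wt (-(1 / 3)), mul_sum]
    refine sum_le_sum fun x _ => ?_
    rw [mul_sum]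
    refine sum_le_sum fun y _ => ?_
    by_cases h : Disjoint (Z x) (Z y)
    · rw [mul_comm (1 / 3)]
      exact mul_le_mul_of_nonneg_left (hdis _ _ h) (wt_nonneg le_rfl (by norm_num) x y)
    · rw [disjoint_left] at h
      push Not at h
      obtain ⟨i, h2, h3⟩ := h
      unfold Z at h2 h3
      rw [mem_filter] at h2 h3
      have h4 : wt (-(1 / 3)) x y = 0 := by
        refine prod_eq_zero (mem_univ i) ?_
        unfold q
        rw [if_pos (by rw [h2.2, h3.2])]
        norm_num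
      rw [h4, zero_mul, mul_zero]
  · intro θ hθ1 hθ2
    rw [hF]
    show _ / _ ≤ _
    rw [div_le_iff₀ h16, one_mul, ← sum_wt θ]
    refine sum_le_sum fun x _ => sum_le_sum fun y _ => ?_
    exact mul_le_of_le_one_right (wt_nonneg hθ1 hθ2 x y) (h1 _ _)
  · intro θ hθ1 hθ2
    have hu9 : (900 : ℝ) ≤ u := by
      have : 900 ≤ u := by nlinarith
      exact_mod_cast this
    have hη : (0 : ℝ) ≤ 16 / u := by positivity
    have hθ0 : -(1 / 3) ≤ θ := by linarith
    rw [hF]
    show _ ≤ _ / _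
    rw [le_div_iff₀ h16]
    have h3 : (15 - 3 * θ) ^ u ≤ 16 ^ u * (1 / 16) := by
      have e1 : (15 - 3 * θ) ^ u ≤ (16 * (1 - 3 / (u : ℝ))) ^ u := by
        refine pow_le_pow_left₀ (by linarith) ?_ u
        have e2 : 16 * (1 - 3 / (u : ℝ)) = 16 - 3 * (16 / (u : ℝ)) := by ring
        rw [e2]
        linarith
      rw [mul_pow] at e1
      refine e1.trans (mul_le_mul_of_nonneg_left ?_ h16.le)
      exact (Real.one_sub_div_pow_le_exp_neg (by linarith)).trans exp_three
    have h4 : ∑ x : Fin u → Fin 4, ∑ y, (13 / 24 * (wt θ x y -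
        if Disjoint (Z x) (Z y) then wt θ x y else 0)) ≤
        ∑ x : Fin u → Fin 4, ∑ y, wt θ x y * A (Z x) (Z y) := by
      refine sum_le_sum fun x _ => sum_le_sum fun y _ => ?_
      have hw := wt_nonneg hθ0 hθ2 x y
      by_cases h : Disjoint (Z x) (Z y)
      · rw [if_pos h, sub_self, mul_zero]
        exact mul_nonneg hw (h0 _ _)
      · rw [if_neg h, sub_zero, mul_comm]
        refine mul_le_mul_of_nonneg_left (hint _ _ ?_) hw
        rw [nonempty_iff_ne_empty]
        exact fun hcon => h (disjoint_iff_inter_eq_empty.2 hcon)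
    have h5 : ∑ x : Fin u → Fin 4, ∑ y, (13 / 24 * (wt θ x y -
        if Disjoint (Z x) (Z y) then wt θ x y else 0)) = 13 / 24 * (16 ^ u - (15 - 3 * θ) ^ u) := by
      rw [← sum_wt θ, ← sum_disj θ, mul_sub, mul_sum, mul_sum, ← sum_sub_distrib]
      refine sum_congr rfl fun x _ => ?_
      rw [mul_sum, mul_sum, ← sum_sub_distrib]
      exact sum_congr rfl fun y _ => by ring
    linarith

end Pool.Agent.Q202.AR
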