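import Pool.Agent.Q202.AR.Core
import Mathlib.RingTheory.Polynomial.Bernstein
import Mathlib.Data.Nat.Choose.Sum

/-!
# The distribution of the size of the intersection
-/

set_option autoImplicit false

open Finset

namespace Pool.Agent.Q202.AR

variable {u : ℕ}

theorem sum_wt_prod (θ : ℝ) (a b : Fin u → ℝ) :
    ∑ x : Fin u → Fin 4, ∑ y, wt θ x y * ∏ i, (if x i = 0 ∧ y i = 0 then a i else b i) =
      ∏ i, (a i * (1 + 3 * θ) + b i * (15 - 3 * θ)) := by
  have h1 : ∀ x y : Fin u → Fin 4, wt θ x y * ∏ i, (if x i = 0 ∧ y i = 0 then a i else b i) =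
      ∏ i, ((1 + θ * q (x i) (y i)) * (if x i = 0 ∧ y i = 0 then a i else b i)) := by
    intro x y
    unfold wt
    rw [← prod_mul_distrib]
  rw [sum_congr rfl fun x _ => sum_congr rfl fun y _ => h1 x y,
    sum_sum_prod fun i c d => (1 + θ * q c d) * (if c = 0 ∧ d = 0 then a i else b i)]
  refine prod_congr rfl fun i _ => ?_
  have h3 : ∀ c d : Fin 4, (1 + θ * q c d) * (if c = 0 ∧ d = 0 then a i else b i) =
      b i * (1 + θ * q c d) +
        (if c = 0 then (if d = 0 then (a i - b i) * (1 + 3 * θ) else 0) else 0) := by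
    intro c d
    by_cases hc : c = 0
    · by_cases hd : d = 0
      · rw [if_pos ⟨hc, hd⟩, if_pos hc, if_pos hd, hc, hd]
        unfold q
        rw [if_pos rfl]
        ring
      · rw [if_neg (fun h => hd h.2), if_pos hc, if_neg hd]
        ring
    · rw [if_neg (fun h => hc h.1), if_neg hc]
      ring
  have h6 : ∑ c : Fin 4, ∑ d : Fin 4, (b i * (1 + θ * q c d) +
        (if c = 0 then (if d = 0 then (a i - b i) * (1 + 3 * θ) else 0) else 0)) =
      b i * 16 + ∑ c : Fin 4, ∑ d : Fin 4,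
        (if c = 0 then (if d = 0 then (a i - b i) * (1 + 3 * θ) else 0) else 0) := by
    rw [← sum_q_sum θ, mul_sum, ← sum_add_distrib]
    exact sum_congr rfl fun c _ => by rw [mul_sum, ← sum_add_distrib]
  rw [sum_congr rfl fun c _ => sum_congr rfl fun d _ => h3 c d, h6]
  have h5 : ∀ c : Fin 4, ∑ d : Fin 4,
      (if c = 0 then (if d = 0 then (a i - b i) * (1 + 3 * θ) else 0) else 0) =
      if c = 0 then (a i - b i) * (1 + 3 * θ) else 0 := by
    intro c
    by_cases hc : c = 0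
    · simp only [if_pos hc]
      rw [sum_ite_eq', if_pos (mem_univ _)]
    · simp only [if_neg hc]
      rw [sum_const_zero]
  rw [sum_congr rfl fun c _ => h5 c, sum_ite_eq', if_pos (mem_univ _)]
  ring

theorem prod_mem (W : Finset (Fin u)) (c d : ℝ) :
    ∏ i, (if i ∈ W then c else d) = c ^ W.card * d ^ (u - W.card) := by
  rw [prod_ite, prod_const, prod_const, filter_mem_eq_inter, univ_inter]
  congr 2
  have h1 : univ.filter (fun i => i ∉ W) = Wᶜ := by
    ext i
    rw [mem_filter, mem_compl]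
    exact ⟨fun h => h.2, fun h => ⟨mem_univ _, h⟩⟩
  rw [h1, card_compl, Fintype.card_fin]

theorem mem_Z_inter (x y : Fin u → Fin 4) (i : Fin u) :
    i ∈ Z x ∩ Z y ↔ x i = 0 ∧ y i = 0 := by
  unfold Z
  rw [mem_inter, mem_filter, mem_filter]
  exact ⟨fun h => ⟨h.1.2, h.2.2⟩, fun h => ⟨⟨mem_univ _, h.1⟩, ⟨mem_univ _, h.2⟩⟩⟩

theorem sum_wt_eq (θ : ℝ) (W : Finset (Fin u)) :
    ∑ x : Fin u → Fin 4, ∑ y, wt θ x y * (if Z x ∩ Z y = W then 1 else 0) =
      (1 + 3 * θ) ^ W.card * (15 - 3 * θ) ^ (u - W.card) := by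
  have h1 : ∀ x y : Fin u → Fin 4, (if Z x ∩ Z y = W then (1 : ℝ) else 0) =
      ∏ i, (if x i = 0 ∧ y i = 0 then (if i ∈ W then 1 else 0) else (if i ∈ W then 0 else 1)) := by
    intro x y
    by_cases h : Z x ∩ Z y = W
    · rw [if_pos h]
      symm
      refine prod_eq_one fun i _ => ?_
      by_cases hi : i ∈ W
      · have h2 := hi
        rw [← h, mem_Z_inter] at h2
        rw [if_pos h2, if_pos hi]
      · have h2 := hi
        rw [← h, mem_Z_inter] at h2
        rw [if_neg h2, if_neg hi]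
    · rw [if_neg h]
      symm
      have h2 : ∃ i, ¬ (i ∈ Z x ∩ Z y ↔ i ∈ W) := by
        by_contra hcon
        push Not at hcon
        exact h (Finset.ext hcon)
      obtain ⟨i, hi⟩ := h2
      rw [mem_Z_inter] at hi
      refine prod_eq_zero (mem_univ i) ?_
      by_cases h3 : x i = 0 ∧ y i = 0
      · have h4 : i ∉ W := fun h4 => hi ⟨fun _ => h4, fun _ => h3⟩
        rw [if_pos h3, if_neg h4]
      · have h4 : i ∈ W := by
          by_contra h4
          exact hi ⟨fun h => absurd h h3, fun h => absurd h h4⟩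
        rw [if_neg h3, if_pos h4]
  rw [sum_congr rfl fun x _ => sum_congr rfl fun y _ => by rw [h1 x y], sum_wt_prod, ← prod_mem]
  refine prod_congr rfl fun i _ => ?_
  by_cases hi : i ∈ W
  · rw [if_pos hi, if_pos hi, if_pos hi]
    ring
  · rw [if_neg hi, if_neg hi, if_neg hi]
    ring

/-- The mean of a function of the size of the intersection. -/
theorem sum_wt_card (θ : ℝ) (g : ℕ → ℝ) :
    ∑ x : Fin u → Fin 4, ∑ y, wt θ x y * g (Z x ∩ Z y).card =
      16 ^ u * ∑ t ∈ range (u + 1), g t * ((u.choose t : ℝ) * ((1 + 3 * θ) / 16) ^ t *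
        (1 - (1 + 3 * θ) / 16) ^ (u - t)) := by
  have h1 : ∀ x y : Fin u → Fin 4, wt θ x y * g (Z x ∩ Z y).card =
      ∑ W : Finset (Fin u), g W.card * (wt θ x y * (if Z x ∩ Z y = W then 1 else 0)) := by
    intro x y
    rw [sum_eq_single (Z x ∩ Z y)]
    · rw [if_pos rfl]
      ring
    · intro W _ hW
      rw [if_neg (Ne.symm hW)]
      ring
    · intro h
      exact absurd (mem_univ _) h
  rw [sum_congr rfl fun x _ => sum_congr rfl fun y _ => h1 x y]
  have h2 : ∑ x : Fin u → Fin 4, ∑ y, ∑ W : Finset (Fin u),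
      g W.card * (wt θ x y * (if Z x ∩ Z y = W then 1 else 0)) =
      ∑ W : Finset (Fin u), g W.card *
        ((1 + 3 * θ) ^ W.card * (15 - 3 * θ) ^ (u - W.card)) := by
    rw [sum_congr rfl fun x _ => sum_comm, sum_comm]
    refine sum_congr rfl fun W _ => ?_
    rw [← sum_wt_eq, mul_sum]
    exact sum_congr rfl fun x _ => by rw [mul_sum]
  rw [h2, ← powerset_univ, sum_powerset_apply_card
    (fun t => g t * ((1 + 3 * θ) ^ t * (15 - 3 * θ) ^ (u - t))), card_univ, Fintype.card_fin,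
    mul_sum]
  refine sum_congr rfl fun t ht => ?_
  rw [mem_range] at ht
  have h3 : (1 + 3 * θ) = 16 * ((1 + 3 * θ) / 16) := by ring
  have h4 : (15 - 3 * θ) = 16 * (1 - (1 + 3 * θ) / 16) := by ring
  have h5 : (16 : ℝ) ^ u = 16 ^ t * 16 ^ (u - t) := by
    rw [← pow_add]
    congr 1
    omega
  rw [nsmul_eq_mul, h4, mul_pow, h5]
  have h6 : (1 + 3 * θ) ^ t = 16 ^ t * ((1 + 3 * θ) / 16) ^ t := by
    rw [← mul_pow, ← h3]
  rw [h6]
  ring

/-- The variance of the size of the intersection. -/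
theorem sum_wt_var (θ : ℝ) :
    ∑ x : Fin u → Fin 4, ∑ y, wt θ x y * (u * ((1 + 3 * θ) / 16) - (Z x ∩ Z y).card) ^ 2 =
      16 ^ u * (u * ((1 + 3 * θ) / 16) * (1 - (1 + 3 * θ) / 16)) := by
  rw [sum_wt_card θ (fun t => (u * ((1 + 3 * θ) / 16) - (t : ℝ)) ^ 2)]
  congr 1
  have h1 := congrArg (Polynomial.eval ((1 + 3 * θ) / 16)) (bernsteinPolynomial.variance ℝ u)
  rw [Polynomial.eval_finsetSum] at h1
  simp [bernsteinPolynomial] at h1
  exact h1

/-- The factorial moments of the size of the intersection. -/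
theorem sum_wt_choose (θ : ℝ) (k : ℕ) :
    ∑ x : Fin u → Fin 4, ∑ y, wt θ x y * ((Z x ∩ Z y).card.choose k : ℝ) =
      u.choose k * ((1 + 3 * θ) ^ k * 16 ^ (u - k)) := by
  have h1 : ∀ W : Finset (Fin u), (W.card.choose k : ℝ) =
      ∑ K ∈ powersetCard k (univ : Finset (Fin u)), (if K ⊆ W then (1 : ℝ) else 0) := by
    intro W
    rw [← sum_filter, sum_const, nsmul_eq_mul, mul_one]
    congr 1
    rw [← card_powersetCard]
    congr 1
    ext K
    rw [mem_powersetCard, mem_filter, mem_powersetCard]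
    exact ⟨fun h => ⟨⟨subset_univ _, h.2⟩, h.1⟩, fun h => ⟨h.2, h.1.2⟩⟩
  have h2 : ∀ K : Finset (Fin u), ∑ x : Fin u → Fin 4, ∑ y, wt θ x y *
      (if K ⊆ Z x ∩ Z y then (1 : ℝ) else 0) = (1 + 3 * θ) ^ K.card * 16 ^ (u - K.card) := by
    intro K
    have h3 : ∀ x y : Fin u → Fin 4, (if K ⊆ Z x ∩ Z y then (1 : ℝ) else 0) =
        ∏ i, (if x i = 0 ∧ y i = 0 then 1 else (if i ∈ K then 0 else 1)) := by
      intro x y
      by_cases h : K ⊆ Z x ∩ Z y
      · rw [if_pos h]
        symm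
        refine prod_eq_one fun i _ => ?_
        by_cases h4 : x i = 0 ∧ y i = 0
        · rw [if_pos h4]
        · have h5 : i ∉ K := fun h5 => h4 ((mem_Z_inter x y i).1 (h h5))
          rw [if_neg h4, if_neg h5]
      · rw [if_neg h]
        symm
        rw [not_subset] at h
        obtain ⟨i, hi, h4⟩ := h
        rw [mem_Z_inter] at h4
        refine prod_eq_zero (mem_univ i) ?_
        rw [if_neg h4, if_pos hi]
    rw [sum_congr rfl fun x _ => sum_congr rfl fun y _ => by rw [h3 x y], sum_wt_prod, ← prod_mem]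
    refine prod_congr rfl fun i _ => ?_
    by_cases hi : i ∈ K
    · rw [if_pos hi, if_pos hi]
      ring
    · rw [if_neg hi, if_neg hi]
      ring
  rw [sum_congr rfl fun x _ => sum_congr rfl fun y _ => by rw [h1, mul_sum]]
  rw [sum_congr rfl fun x _ => sum_comm, sum_comm, sum_congr rfl fun K _ => h2 K,
    sum_congr rfl fun K hK => by rw [(mem_powersetCard.1 hK).2], sum_const, card_powersetCard,
    card_univ, Fintype.card_fin, nsmul_eq_mul]

end Pool.Agent.Q202.AR
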