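import Pool.Agent.Q202.AR.Cheb
import Mathlib.Algebra.Polynomial.Taylor
import Mathlib.Algebra.Polynomial.HasseDeriv

/-!
# Extrapolation of polynomials which are small near the end of an interval
-/

set_option autoImplicit false

open Polynomial

namespace Pool.Agent.Q202.AR

theorem cheb_pow {n : ℕ} {x : ℝ} (hx : 1 ≤ x) : (Chebyshev.T ℝ n).eval x ≤ (2 * x) ^ n := by
  obtain ⟨t, rfl⟩ : ∃ t, x = Real.cosh t := ⟨Real.arcosh x, (Real.cosh_arcosh hx).symm⟩
  have h1 : ∀ t : ℝ, Real.exp |t| ≤ 2 * Real.cosh t := by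
    intro t
    have h2 := Real.cosh_eq t
    rcases le_total 0 t with h | h
    · rw [abs_of_nonneg h]
      have := Real.exp_pos (-t)
      linarith
    · rw [abs_of_nonpos h]
      have := Real.exp_pos t
      linarith
  rw [Chebyshev.T_real_cosh]
  calc Real.cosh (((n : ℤ) : ℝ) * t) ≤ Real.exp |((n : ℤ) : ℝ) * t| := by
        have h2 := Real.cosh_eq (((n : ℤ) : ℝ) * t)
        have h3 := Real.exp_le_exp.2 (le_abs_self (((n : ℤ) : ℝ) * t))
        have h4 := Real.exp_le_exp.2 (neg_le_abs (((n : ℤ) : ℝ) * t))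
        linarith
    _ = Real.exp |t| ^ n := by
        rw [abs_mul, ← Real.exp_nat_mul]
        congr 2
        rw [abs_of_nonneg (by positivity)]
        push_cast
        rfl
    _ ≤ _ := pow_le_pow_left₀ (Real.exp_pos _).le (h1 t) n

/-- The Taylor coefficients of the Chebyshev polynomials at `1`. -/
theorem cheb_taylor (n j : ℕ) :
    (derivative^[j] (Chebyshev.T ℝ n)).eval 1 ≤ j.factorial * (2 * (n : ℝ) ^ 2) ^ j /
      (2 * j).factorial := by
  have hz : ∀ j, n < j → (derivative^[j] (Chebyshev.T ℝ n)).eval 1 = 0 := by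
    intro j hj
    rw [iterate_derivative_eq_zero, eval_zero]
    have h1 := Chebyshev.natDegree_T ℝ (n : ℤ)
    rw [h1]
    simpa using hj
  have hr := fun k => Chebyshev.iterate_derivative_T_eval_one_recurrence (R := ℝ) (n : ℤ) k
  have h0 : ∀ j, 0 ≤ (derivative^[j] (Chebyshev.T ℝ n)).eval 1 := by
    intro j
    induction j with
    | zero => simp
    | succ j ih =>
      rcases lt_or_ge n (j + 1) with h | h
      · rw [hz _ h]
      · have h1 := hr j
        have h2 : (0 : ℝ) ≤ ((n : ℤ) : ℝ) ^ 2 - (j : ℝ) ^ 2 := by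
          have h3 : (j : ℝ) ≤ n := by exact_mod_cast (by omega : j ≤ n)
          have h4 : (0 : ℝ) ≤ j := Nat.cast_nonneg _
          push_cast
          nlinarith
        have h3 : (0 : ℝ) < 2 * j + 1 := by positivity
        have h4 := mul_nonneg h2 ih
        rw [← h1] at h4
        exact nonneg_of_mul_nonneg_right h4 h3
  induction j with
  | zero => simp
  | succ j ih =>
    have h1 := hr j
    have h3 : (0 : ℝ) < 2 * j + 1 := by positivity
    have h4 : (2 * (j : ℝ) + 1) * (derivative^[j + 1] (Chebyshev.T ℝ n)).eval 1 ≤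
        (n : ℝ) ^ 2 * (j.factorial * (2 * (n : ℝ) ^ 2) ^ j / (2 * j).factorial) := by
      rw [h1]
      calc (((n : ℤ) : ℝ) ^ 2 - (j : ℝ) ^ 2) * (derivative^[j] (Chebyshev.T ℝ n)).eval 1 ≤
            (n : ℝ) ^ 2 * (derivative^[j] (Chebyshev.T ℝ n)).eval 1 := by
            refine mul_le_mul_of_nonneg_right ?_ (h0 j)
            push_cast
            nlinarith [sq_nonneg (j : ℝ)]
        _ ≤ _ := mul_le_mul_of_nonneg_left ih (by positivity)
    have h5 : ((j + 1).factorial : ℝ) * (2 * (n : ℝ) ^ 2) ^ (j + 1) / (2 * (j + 1)).factorial =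
        (n : ℝ) ^ 2 * (j.factorial * (2 * (n : ℝ) ^ 2) ^ j / (2 * j).factorial) / (2 * j + 1) := by
      have e1 : 2 * (j + 1) = 2 * j + 1 + 1 := by ring
      rw [e1, Nat.factorial_succ, Nat.factorial_succ, Nat.factorial_succ]
      have h6 : ((2 * j).factorial : ℝ) ≠ 0 := by exact_mod_cast (Nat.factorial_ne_zero _)
      have h7 : (2 * (j : ℝ) + 1) ≠ 0 := h3.ne'
      have h8 : (2 * (j : ℝ) + 1 + 1) ≠ 0 := by positivity
      push_cast
      field_simp
      ring
    rw [h5, le_div_iff₀ h3]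
    linarith

/-- The coefficients of a polynomial which is bounded on an interval. -/
theorem coeff_le {d : ℕ} {P : ℝ[X]} (hP : P.natDegree ≤ d) {B Λ : ℝ} (hB0 : 0 < B) (hΛ : 0 < Λ)
    (hB : ∀ x, 0 ≤ x → x ≤ Λ → |P.eval x| ≤ B) (j : ℕ) :
    |P.coeff j| ≤ B * (4 * (d : ℝ) ^ 2 / Λ) ^ j / (2 * j).factorial := by
  have key : ∀ s : ℝ, |s| = 1 → s * (P.coeff j * (-(Λ / 2)) ^ j) * j.factorial / B ≤
      j.factorial * (2 * (d : ℝ) ^ 2) ^ j / (2 * j).factorial := by
    intro s hs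
    obtain ⟨Q, hQ⟩ : ∃ Q : ℝ[X], Q = C (s / B) * P.comp (C (Λ / 2) * (1 - X)) := ⟨_, rfl⟩
    have hev : ∀ x, Q.eval x = s / B * P.eval (Λ / 2 * (1 - x)) := by
      intro x
      rw [hQ]
      simp [eval_comp]
    have hd : Q.natDegree ≤ d := by
      rw [hQ]
      refine (natDegree_C_mul_le _ _).trans (natDegree_comp_le.trans ?_)
      have h1 : (C (Λ / 2) * (1 - X) : ℝ[X]).natDegree ≤ 1 := by
        refine (natDegree_C_mul_le _ _).trans ((natDegree_sub_le _ _).trans ?_)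
        rw [natDegree_one, max_eq_right (Nat.zero_le _)]
        exact natDegree_X_le
      calc P.natDegree * _ ≤ P.natDegree * 1 := Nat.mul_le_mul_left _ h1
        _ ≤ d := by rw [mul_one]; exact hP
    have hb : ∀ x ∈ Set.Icc (-1 : ℝ) 1, |Q.eval x| ≤ 1 := by
      rintro x ⟨hx1, hx2⟩
      rw [hev, abs_mul, abs_div, hs, abs_of_pos hB0, div_mul_eq_mul_div, one_mul,
        div_le_one hB0]
      exact hB _ (by nlinarith) (by nlinarith)
    have h1 := Chebyshev.eval_iterate_derivative_le_of_forall_abs_le_one (n := d) (P := Q) (k := j)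
      le_rfl (natDegree_le_iff_degree_le.1 hd) hb
    have h2 := h1.trans (cheb_taylor d j)
    have h3 : (derivative^[j] Q).eval 1 = j.factorial * (taylor 1 Q).coeff j := by
      rw [taylor_coeff, ← factorial_smul_hasseDeriv]
      simp
    have h4 : taylor 1 Q = C (s / B) * P.comp (C (-(Λ / 2)) * X) := by
      rw [taylor_apply, hQ, mul_comp, C_comp, comp_assoc]
      congr 2
      simp
    rw [h3, h4, coeff_C_mul, comp_C_mul_X_coeff] at h2
    refine le_trans (le_of_eq ?_) h2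
    ring
  have h1 := key 1 (by simp)
  have h2 := key (-1) (by simp)
  have hf : (0 : ℝ) < j.factorial := by exact_mod_cast Nat.factorial_pos _
  have hf2 : (0 : ℝ) < (2 * j).factorial := by exact_mod_cast Nat.factorial_pos _
  have h3 : |P.coeff j * (-(Λ / 2)) ^ j| * j.factorial / B ≤
      j.factorial * (2 * (d : ℝ) ^ 2) ^ j / (2 * j).factorial := by
    rcases abs_cases (P.coeff j * (-(Λ / 2)) ^ j) with ⟨h4, -⟩ | ⟨h4, -⟩
    · rw [h4]
      rw [one_mul] at h1
      exact h1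
    · rw [h4]
      rw [neg_one_mul] at h2
      exact h2
  rw [abs_mul, abs_pow, abs_neg, abs_of_pos (by positivity : 0 < Λ / 2), div_le_div_iff₀ hB0 hf2]
    at h3
  rw [div_pow, le_div_iff₀ hf2]
  have hΛj : (0 : ℝ) < Λ ^ j := by positivity
  have h5 : |P.coeff j| * Λ ^ j * (2 * j).factorial ≤ (4 * (d : ℝ) ^ 2) ^ j * B := by
    have e1 : (4 * (d : ℝ) ^ 2) ^ j = 2 ^ j * (2 * (d : ℝ) ^ 2) ^ j := by
      rw [← mul_pow]
      congr 1
      ring
    have e2 : Λ ^ j = 2 ^ j * (Λ / 2) ^ j := by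
      rw [← mul_pow]
      congr 1
      ring
    rw [e1, e2]
    have h6 : |P.coeff j| * (Λ / 2) ^ j * (2 * j).factorial ≤ (2 * (d : ℝ) ^ 2) ^ j * B := by
      refine le_of_mul_le_mul_left ?_ hf
      nlinarith
    have h7 : (0 : ℝ) ≤ 2 ^ j := by positivity
    nlinarith [mul_le_mul_of_nonneg_left h6 h7]
  rw [mul_div_assoc', le_div_iff₀ hΛj]
  nlinarith

theorem exp_two_lt : Real.exp 2 ≤ 8 := by
  have h1 : Real.exp 2 = Real.exp 1 ^ 2 := by
    rw [← Real.exp_nat_mul]
    norm_num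
  have h2 := Real.exp_one_lt_d9
  have h3 := Real.exp_pos 1
  rw [h1]
  nlinarith

theorem sum_even_le (x : ℝ) (hx : 0 ≤ x) (a b : ℕ) :
    ∑ j ∈ Finset.Ico a b, x ^ (2 * j) / (2 * j).factorial ≤ Real.exp x := by
  refine le_trans ?_ (Real.sum_le_exp_of_nonneg hx (2 * b))
  have h1 : ∑ j ∈ Finset.Ico a b, x ^ (2 * j) / ((2 * j).factorial : ℝ) =
      ∑ i ∈ (Finset.Ico a b).image (fun j => 2 * j), x ^ i / (i.factorial : ℝ) := by
    rw [Finset.sum_image]
    intro i _ j _ hij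
    have : 2 * i = 2 * j := hij
    omega
  rw [h1]
  refine Finset.sum_le_sum_of_subset_of_nonneg (fun i hi => ?_) (fun i _ _ => by positivity)
  obtain ⟨j, hj, rfl⟩ := Finset.mem_image.1 hi
  rw [Finset.mem_Ico] at hj
  exact Finset.mem_range.2 (by omega)

theorem tail_le {d m : ℕ} (hm : 1 ≤ m) {P : ℝ[X]} (hP : P.natDegree ≤ d) {B Λ l1 l : ℝ}
    (hB0 : 0 < B) (h1 : 0 < l1) (h1Λ : l1 ≤ Λ) (hB : ∀ x, 0 ≤ x → x ≤ Λ → |P.eval x| ≤ B)
    (hw : 4 * (d : ℝ) ^ 2 / Λ * l1 ≤ ((m : ℝ) / 128) ^ 2) (hl0 : 0 ≤ l) (hl : l ≤ l1) (n : ℕ) :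
    ∑ j ∈ Finset.Ico m n, |P.coeff j * l ^ j| ≤ B * (1 / 2 ^ 13) ^ m * (l / l1) ^ m := by
  have hΛ : 0 < Λ := h1.trans_le h1Λ
  obtain ⟨w, hw'⟩ : ∃ w, w = 4 * (d : ℝ) ^ 2 / Λ * l1 := ⟨_, rfl⟩
  have hw0 : 0 ≤ w := by
    rw [hw']
    positivity
  rw [← hw'] at hw
  have hm0 : (0 : ℝ) < m := by exact_mod_cast hm
  have hr0 : 0 ≤ l / l1 := div_nonneg hl0 h1.le
  have hr1 : l / l1 ≤ 1 := (div_le_one h1).2 hl
  have hq : w / (2 * (m : ℝ)) ^ 2 ≤ 1 / 65536 := by
    rw [div_le_iff₀ (by positivity)]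
    nlinarith
  have hq0 : 0 ≤ w / (2 * (m : ℝ)) ^ 2 := by positivity
  calc ∑ j ∈ Finset.Ico m n, |P.coeff j * l ^ j| ≤ ∑ j ∈ Finset.Ico m n,
        B * (1 / 65536) ^ m * (l / l1) ^ m * ((2 * (m : ℝ)) ^ (2 * j) / (2 * j).factorial) := by
        refine Finset.sum_le_sum fun j hj => ?_
        rw [Finset.mem_Ico] at hj
        have hf2 : (0 : ℝ) < (2 * j).factorial := by exact_mod_cast Nat.factorial_pos _
        rw [abs_mul, abs_of_nonneg (pow_nonneg hl0 j)]
        calc |P.coeff j| * l ^ j ≤ B * (4 * (d : ℝ) ^ 2 / Λ) ^ j / (2 * j).factorial * l ^ j :=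
              mul_le_mul_of_nonneg_right (coeff_le hP hB0 hΛ hB j) (pow_nonneg hl0 j)
          _ = B * ((w / (2 * (m : ℝ)) ^ 2) ^ j * (l / l1) ^ j) *
                ((2 * (m : ℝ)) ^ (2 * j) / (2 * j).factorial) := by
              have e1 : (4 * (d : ℝ) ^ 2 / Λ) ^ j * l ^ j =
                  (w / (2 * (m : ℝ)) ^ 2) ^ j * (l / l1) ^ j * (2 * (m : ℝ)) ^ (2 * j) := by
                rw [pow_mul, ← mul_pow, ← mul_pow, ← mul_pow]
                congr 1
                rw [hw']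
                field_simp
              calc _ = B * ((4 * (d : ℝ) ^ 2 / Λ) ^ j * l ^ j) / (2 * j).factorial := by ring
                _ = _ := by
                  rw [e1]
                  ring
          _ ≤ _ := by
              refine mul_le_mul_of_nonneg_right ?_ (by positivity)
              rw [mul_assoc]
              refine mul_le_mul_of_nonneg_left ?_ hB0.le
              refine mul_le_mul ?_ (pow_le_pow_of_le_one hr0 hr1 hj.1) (by positivity)
                (by positivity)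
              exact (pow_le_pow_left₀ hq0 hq j).trans
                (pow_le_pow_of_le_one (by norm_num) (by norm_num) hj.1)
    _ = B * (1 / 65536) ^ m * (l / l1) ^ m *
          ∑ j ∈ Finset.Ico m n, ((2 * (m : ℝ)) ^ (2 * j) / (2 * j).factorial) := by
        rw [Finset.mul_sum]
    _ ≤ B * (1 / 65536) ^ m * (l / l1) ^ m * 8 ^ m := by
        refine mul_le_mul_of_nonneg_left ?_ (by positivity)
        refine (sum_even_le _ (by positivity) m n).trans ?_
        have e1 : Real.exp (2 * (m : ℝ)) = Real.exp 2 ^ m := by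
          rw [← Real.exp_nat_mul]
          congr 1
          ring
        rw [e1]
        exact pow_le_pow_left₀ (Real.exp_pos _).le exp_two_lt m
    _ = _ := by
        have e1 : ((1 : ℝ) / 65536) ^ m * 8 ^ m = (1 / 2 ^ 13) ^ m := by
          rw [← mul_pow]
          norm_num
        rw [← e1]
        ring

/-- A polynomial which is bounded on an interval, and small near its end, is small a little
farther. -/
theorem extrapolate {d m : ℕ} (hm : 1 ≤ m) {P : ℝ[X]} (hP : P.natDegree ≤ d)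
    {B ε Λ l0 l1 : ℝ} (hB0 : 0 < B) (hε0 : 0 < ε) (h0 : 0 < l0) (h01 : l0 ≤ l1) (h1Λ : l1 ≤ Λ)
    (hB : ∀ x, 0 ≤ x → x ≤ Λ → |P.eval x| ≤ B) (hε : ∀ x, 0 ≤ x → x ≤ l0 → |P.eval x| ≤ ε)
    (hw : 4 * (d : ℝ) ^ 2 / Λ * l1 ≤ ((m : ℝ) / 128) ^ 2) :
    |P.eval l1| ≤ (ε + B * (1 / 2 ^ 13) ^ m * (l0 / l1) ^ m) * (4 * l1 / l0) ^ m +
      B * (1 / 2 ^ 13) ^ m := by
  have h1 : 0 < l1 := h0.trans_le h01
  obtain ⟨Q, hQ⟩ : ∃ Q : ℝ[X], Q = ∑ j ∈ Finset.range m, C (P.coeff j) * X ^ j := ⟨_, rfl⟩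
  have hQe : ∀ x, Q.eval x = ∑ j ∈ Finset.range m, P.coeff j * x ^ j := by
    intro x
    rw [hQ, eval_finsetSum]
    exact Finset.sum_congr rfl fun s _ => by simp
  have hQd : Q.natDegree ≤ m := by
    rw [hQ]
    refine natDegree_sum_le_of_forall_le _ _ fun s hs => ?_
    rw [Finset.mem_range] at hs
    exact (natDegree_C_mul_X_pow_le _ _).trans (by omega)
  have hPQ : ∀ x, 0 ≤ x → x ≤ l1 →
      |P.eval x - Q.eval x| ≤ B * (1 / 2 ^ 13) ^ m * (x / l1) ^ m := by
    intro x hx0 hx1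
    have e1 : P.eval x = ∑ j ∈ Finset.range (d + 1 + m), P.coeff j * x ^ j :=
      eval_eq_sum_range' (by omega) x
    rw [e1, hQe, ← Finset.sum_range_add_sum_Ico _ (by omega : m ≤ d + 1 + m),
      add_sub_cancel_left]
    exact (Finset.abs_sum_le_sum_abs _ _).trans
      (tail_le hm hP hB0 h1 h1Λ hB hw hx0 hx1 (d + 1 + m))
  obtain ⟨E, hE⟩ : ∃ E, E = ε + B * (1 / 2 ^ 13) ^ m * (l0 / l1) ^ m := ⟨_, rfl⟩
  have hE0 : 0 < E := by
    rw [hE]
    positivity
  have hQb : ∀ x, 0 ≤ x → x ≤ l0 → |Q.eval x| ≤ E := by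
    intro x hx0 hx1
    have h2 := hPQ x hx0 (hx1.trans h01)
    have h3 := hε x hx0 hx1
    have h4 : B * (1 / 2 ^ 13) ^ m * (x / l1) ^ m ≤ B * (1 / 2 ^ 13) ^ m * (l0 / l1) ^ m := by
      refine mul_le_mul_of_nonneg_left ?_ (by positivity)
      exact pow_le_pow_left₀ (div_nonneg hx0 h1.le) (div_le_div_of_nonneg_right hx1 h1.le) m
    rw [abs_le] at h2 h3 ⊢
    rw [hE]
    constructor <;> linarith [h2.1, h2.2, h3.1, h3.2]
  have hgrow : |Q.eval l1| ≤ E * (4 * l1 / l0) ^ m := by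
    have key : ∀ s : ℝ, |s| = 1 → s * Q.eval l1 ≤ E * (4 * l1 / l0) ^ m := by
      intro s hs
      obtain ⟨S, hS⟩ : ∃ S : ℝ[X], S = C (s / E) * Q.comp (C (l0 / 2) * (1 + X)) := ⟨_, rfl⟩
      have hev : ∀ x, S.eval x = s / E * Q.eval (l0 / 2 * (1 + x)) := by
        intro x
        rw [hS]
        simp [eval_comp]
      have hd : S.natDegree ≤ m := by
        rw [hS]
        refine (natDegree_C_mul_le _ _).trans (natDegree_comp_le.trans ?_)
        have h1 : (C (l0 / 2) * (1 + X) : ℝ[X]).natDegree ≤ 1 := by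
          refine (natDegree_C_mul_le _ _).trans ((natDegree_add_le _ _).trans ?_)
          rw [natDegree_one, max_eq_right (Nat.zero_le _)]
          exact natDegree_X_le
        calc Q.natDegree * _ ≤ Q.natDegree * 1 := Nat.mul_le_mul_left _ h1
          _ ≤ m := by rw [mul_one]; exact hQd
      have hb : ∀ x ∈ Set.Icc (-1 : ℝ) 1, |S.eval x| ≤ 1 := by
        rintro x ⟨hx1, hx2⟩
        rw [hev, abs_mul, abs_div, hs, abs_of_pos hE0, div_mul_eq_mul_div, one_mul,
          div_le_one hE0]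
        exact hQb _ (by nlinarith) (by nlinarith)
      have hy : 1 ≤ 2 * l1 / l0 - 1 := by
        have : 2 ≤ 2 * l1 / l0 := by
          rw [le_div_iff₀ h0]
          linarith
        linarith
      have h2 := Chebyshev.eval_iterate_derivative_le_of_forall_abs_le_one (n := m) (P := S)
        (k := 0) hy (natDegree_le_iff_degree_le.1 hd) hb
      have h3 : S.eval (2 * l1 / l0 - 1) ≤ (2 * (2 * l1 / l0 - 1)) ^ m := h2.trans (cheb_pow hy)
      have h4 : l0 / 2 * (1 + (2 * l1 / l0 - 1)) = l1 := by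
        field_simp
        ring
      rw [hev, h4, div_mul_eq_mul_div, div_le_iff₀ hE0] at h3
      refine h3.trans ?_
      rw [mul_comm]
      refine mul_le_mul_of_nonneg_left ?_ hE0.le
      refine pow_le_pow_left₀ (by linarith) ?_ m
      have e1 : 4 * l1 / l0 = 2 * (2 * l1 / l0) := by ring
      rw [e1]
      linarith
    rw [abs_le]
    have h2 := key 1 (by simp)
    have h3 := key (-1) (by simp)
    constructor <;> linarith
  have h2 := hPQ l1 h1.le le_rfl
  rw [div_self h1.ne', one_pow, mul_one] at h2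
  rw [← hE]
  rw [abs_le] at h2 hgrow ⊢
  constructor <;> linarith [h2.1, h2.2, hgrow.1, hgrow.2]

end Pool.Agent.Q202.AR
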