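import Pool.Agent.Q202.AR.Core
import Mathlib.Algebra.MvPolynomial.Basic
import Mathlib.Algebra.MvPolynomial.Degrees
import Mathlib.Data.Nat.Log

/-!
# Polynomials in functions of small rank do not approximate disjointness
-/

set_option autoImplicit false

open Finset

namespace Pool.Agent.Q202.AR

/-- The real function `f` of two arguments has rank at most `r`. -/
def RankLe {X Y : Type} (r : ℕ) (f : X → Y → ℝ) : Prop :=
  ∃ (g : Fin r → X → ℝ) (h : Fin r → Y → ℝ), ∀ x y, f x y = ∑ a, g a x * h a y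

theorem exists_list {M : ℕ} (α : Fin M →₀ ℕ) :
    ∃ L : List (Fin M), L.length = α.sum (fun _ n => n) ∧
      ∀ β : Fin M → ℝ, (L.map β).prod = α.prod (fun l n => β l ^ n) := by
  induction α using Finsupp.induction_linear with
  | zero => exact ⟨[], rfl, fun β => by simp⟩
  | add f g hf hg =>
    obtain ⟨L, h1, h2⟩ := hf
    obtain ⟨L', h1', h2'⟩ := hg
    refine ⟨L ++ L', ?_, fun β => ?_⟩
    · rw [List.length_append, h1, h1', Finsupp.sum_add_index' (fun _ => rfl) (fun _ _ _ => rfl)]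
    · rw [List.map_append, List.prod_append, h2, h2',
        Finsupp.prod_add_index' (fun l => pow_zero _) (fun l n n' => pow_add _ _ _)]
  | single a n =>
    refine ⟨List.replicate n a, ?_, fun β => ?_⟩
    · rw [List.length_replicate, Finsupp.sum_single_index rfl]
    · rw [List.map_replicate, List.prod_replicate,
        Finsupp.prod_single_index (h := fun l n => β l ^ n) (pow_zero _)]

/-- The factor of a step. -/
def fac {M : ℕ} (β : Fin M → ℝ) : Option (Fin M) → ℝ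
  | none => 1
  | some l => β l

theorem prod_fac {M : ℕ} (β : Fin M → ℝ) (L : List (Fin M)) :
    ∀ T : ℕ, L.length ≤ T → ∏ t : Fin T, fac β (L[(t : ℕ)]?) = (L.map β).prod := by
  induction L with
  | nil =>
    intro T _
    simp [fac]
  | cons a L ih =>
    intro T hT
    rw [List.length_cons] at hT
    obtain ⟨T', rfl⟩ : ∃ T', T = T' + 1 := ⟨T - 1, by omega⟩
    rw [Fin.prod_univ_succ, List.map_cons, List.prod_cons, ← ih T' (by omega)]
    simp [fac]

/-- The functions of the second argument from which all polynomials of degree at most `T` in numbers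
of rank at most `r` are combined. -/
theorem joint {M r T : ℕ} (hr : 1 ≤ r) {X Y : Type} (f : X → Y → Fin M → ℝ)
    (hf : ∀ l, RankLe r (fun x y => f x y l)) (p : MvPolynomial (Fin M) ℝ)
    (hp : p.totalDegree ≤ T) :
    ∃ G : (Fin T → Option (Fin M)) × (Fin T → Fin r) → Y → ℝ, ∀ x,
      (fun y => MvPolynomial.eval (f x y) p) ∈ Submodule.span ℝ (Set.range G) := by
  classical
  choose g h hgh using hf
  obtain ⟨F, hF⟩ : ∃ F : Option (Fin M) → Fin r → X → ℝ, F = fun o a x =>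
    match o with
    | none => if a = ⟨0, hr⟩ then 1 else 0
    | some l => g l a x := ⟨_, rfl⟩
  obtain ⟨H, hH⟩ : ∃ H : Option (Fin M) → Fin r → Y → ℝ, H = fun o a y =>
    match o with
    | none => 1
    | some l => h l a y := ⟨_, rfl⟩
  have hb : ∀ (o : Option (Fin M)) x y, fac (f x y) o = ∑ a, F o a x * H o a y := by
    intro o x y
    cases o with
    | none =>
      rw [hF, hH]
      simp [fac]
    | some l =>
      rw [hF, hH]
      exact hgh l x y
  refine ⟨fun q y => ∏ t, H (q.1 t) (q.2 t) y, fun x => ?_⟩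
  have h1 : (fun y => MvPolynomial.eval (f x y) p) =
      ∑ α ∈ p.support, p.coeff α • (fun y => α.prod (fun l n => f x y l ^ n)) := by
    funext y
    rw [MvPolynomial.eval_eq, Finset.sum_apply]
    rfl
  rw [h1]
  refine Submodule.sum_mem _ fun α hα => Submodule.smul_mem _ _ ?_
  obtain ⟨L, hL1, hL2⟩ := exists_list α
  have hLT : L.length ≤ T := by
    rw [hL1]
    exact (MvPolynomial.le_totalDegree hα).trans hp
  have h2 : (fun y => α.prod (fun l n => f x y l ^ n)) =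
      ∑ τ : Fin T → Fin r, (∏ t : Fin T, F (L[(t : ℕ)]?) (τ t) x) •
        (fun y => ∏ t : Fin T, H (L[(t : ℕ)]?) (τ t) y) := by
    funext y
    rw [← hL2, ← prod_fac _ L T hLT, Finset.sum_apply]
    have e1 : ∏ t : Fin T, fac (f x y) (L[(t : ℕ)]?) =
        ∏ t : Fin T, ∑ a, F (L[(t : ℕ)]?) a x * H (L[(t : ℕ)]?) a y :=
      prod_congr rfl fun t _ => hb (L[(t : ℕ)]?) x y
    rw [e1, prod_univ_sum, Fintype.piFinset_univ]
    refine sum_congr rfl fun τ _ => ?_
    rw [prod_mul_distrib]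
    rfl
  rw [h2]
  refine Submodule.sum_mem _ fun τ _ => Submodule.smul_mem _ _ ?_
  exact Submodule.subset_span ⟨(fun t => L[(t : ℕ)]?, τ), rfl⟩

/-- The products of a polynomial in functions of small rank with the signed sums. -/
theorem D_bound {u M r T : ℕ} (hr : 1 ≤ r) (f : Finset (Fin u) → Finset (Fin u) → Fin M → ℝ)
    (hf : ∀ l, RankLe r (fun x y => f x y l)) (p : MvPolynomial (Fin M) ℝ)
    (hp : p.totalDegree ≤ T) (h0 : ∀ x y, 0 ≤ MvPolynomial.eval (f x y) p)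
    (h1 : ∀ x y, MvPolynomial.eval (f x y) p ≤ 1) {e : ℕ → ℝ} (he : ∀ s, e s ^ 2 = 1) :
    ∑ x : Fin u → Fin 4, ∑ y, D e x y * MvPolynomial.eval (f (Z x) (Z y)) p ≤
      ((((M + 1) * r) ^ T : ℕ) : ℝ) * 16 ^ u := by
  classical
  obtain ⟨G, hG⟩ := joint hr f hf p hp
  obtain ⟨R, hR⟩ : ∃ R, R = ((M + 1) * r) ^ T := ⟨_, rfl⟩
  have hG' : ∀ x : Fin u → Fin 4, (fun y : Fin u → Fin 4 => MvPolynomial.eval (f (Z x) (Z y)) p) ∈
      Submodule.span ℝ (Set.range fun a (y : Fin u → Fin 4) => G a (Z y)) := by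
    intro x
    have h2 := Submodule.mem_map_of_mem (f := LinearMap.funLeft ℝ ℝ (Z : (Fin u → Fin 4) → _))
      (hG (Z x))
    rw [Submodule.map_span, ← Set.range_comp] at h2
    exact h2
  have h2 := trace_bound (D e) (fun x y : Fin u → Fin 4 => MvPolynomial.eval (f (Z x) (Z y)) p)
    (c := 16 ^ u) (by positivity) (fun y => by rw [D_orth he, if_pos rfl])
    (fun y z hyz => by rw [D_orth he, if_neg hyz]) _ hG' (fun x y => by
      have h3 := h0 (Z x) (Z y)
      have h4 := h1 (Z x) (Z y)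
      nlinarith)
  have hc : Fintype.card ((Fin T → Option (Fin M)) × (Fin T → Fin r)) = R := by
    rw [Fintype.card_prod, Fintype.card_fun, Fintype.card_fun, Fintype.card_fin, Fintype.card_fin,
      Fintype.card_option, Fintype.card_fin, hR, mul_pow]
  have hX : Fintype.card (Fin u → Fin 4) = 4 ^ u := by
    rw [Fintype.card_fun, Fintype.card_fin, Fintype.card_fin]
  rw [hc, hX] at h2
  rw [← hR]
  have h3 : ((4 ^ u : ℕ) : ℝ) ^ 2 = 16 ^ u := by
    push_cast
    rw [← pow_mul, mul_comm, pow_mul]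
    norm_num
  rw [h3] at h2
  have hRR : (R : ℝ) ≤ (R : ℝ) ^ 2 := by
    have : R ≤ R ^ 2 := Nat.le_self_pow (by norm_num) R
    exact_mod_cast this
  refine le_of_abs_le (abs_le_of_sq_le_sq ?_ (by positivity))
  refine h2.trans ?_
  have h4 : (0 : ℝ) ≤ 16 ^ u * 16 ^ u := by positivity
  nlinarith [mul_le_mul_of_nonneg_right hRR h4]

open Classical in
/-- For a random memory many members have a number of large rank. -/
theorem random_core {u M r T L : ℕ} (hr : 1 ≤ r) (hL : L = T * Nat.clog 2 ((M + 1) * r) + 4)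
    (hu : 100 * L ^ 2 ≤ u) {Ω : Type} [Fintype Ω]
    (f : Ω → Finset (Fin u) → Finset (Fin u) → Fin M → ℝ) (p : Ω → MvPolynomial (Fin M) ℝ)
    (hp : ∀ ω, (p ω).totalDegree ≤ T) (h0 : ∀ ω x y, 0 ≤ MvPolynomial.eval (f ω x y) (p ω))
    (h1 : ∀ ω x y, MvPolynomial.eval (f ω x y) (p ω) ≤ 1)
    (hint : ∀ x y, (x ∩ y).Nonempty →
      2 * (Fintype.card Ω : ℝ) ≤ 3 * ∑ ω, MvPolynomial.eval (f ω x y) (p ω))
    (hdis : ∀ x y, Disjoint x y →
      3 * ∑ ω, MvPolynomial.eval (f ω x y) (p ω) ≤ (Fintype.card Ω : ℝ)) :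
    Fintype.card Ω ≤ 8 *
      (univ.filter (fun ω => ∃ l, ¬ RankLe r (fun x y => f ω x y l))).card := by
  obtain ⟨E, hE⟩ : ∃ E, E = univ.filter (fun ω => ∃ l, ¬ RankLe r (fun x y => f ω x y l)) :=
    ⟨_, rfl⟩
  rw [← hE]
  by_contra hcon
  push Not at hcon
  obtain ⟨n, hn⟩ : ∃ n : ℝ, n = Fintype.card Ω := ⟨_, rfl⟩
  have hEn : 8 * (E.card : ℝ) ≤ n := by
    rw [hn]
    exact_mod_cast hcon.le
  have hn0 : 0 < n := by
    rw [hn]
    have : 0 < Fintype.card Ω := by omega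
    exact_mod_cast this
  have hEc : (E.card : ℝ) + (Eᶜ.card : ℝ) = n := by
    rw [hn]
    exact_mod_cast card_add_card_compl E
  rw [← hn] at hint hdis
  have hsplit : ∀ x y, ∑ ω, MvPolynomial.eval (f ω x y) (p ω) =
      ∑ ω ∈ E, MvPolynomial.eval (f ω x y) (p ω) + ∑ ω ∈ Eᶜ, MvPolynomial.eval (f ω x y) (p ω) :=
    fun x y => (sum_add_sum_compl E _).symm
  have hE0 : ∀ x y, 0 ≤ ∑ ω ∈ E, MvPolynomial.eval (f ω x y) (p ω) :=
    fun x y => sum_nonneg fun ω _ => h0 ω x y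
  have hE1 : ∀ x y, ∑ ω ∈ E, MvPolynomial.eval (f ω x y) (p ω) ≤ E.card := by
    intro x y
    calc ∑ ω ∈ E, MvPolynomial.eval (f ω x y) (p ω) ≤ ∑ _ω ∈ E, (1 : ℝ) :=
          sum_le_sum fun ω _ => h1 ω x y
      _ = _ := by rw [sum_const, nsmul_eq_mul, mul_one]
  have hE2 : ∀ x y, ∑ ω ∈ Eᶜ, MvPolynomial.eval (f ω x y) (p ω) ≤ Eᶜ.card := by
    intro x y
    calc ∑ ω ∈ Eᶜ, MvPolynomial.eval (f ω x y) (p ω) ≤ ∑ _ω ∈ Eᶜ, (1 : ℝ) :=
          sum_le_sum fun ω _ => h1 ω x y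
      _ = _ := by rw [sum_const, nsmul_eq_mul, mul_one]
  refine core (u := u) (d := L) (B := ((((M + 1) * r) ^ T : ℕ) : ℝ))
    (fun x y => (∑ ω ∈ Eᶜ, MvPolynomial.eval (f ω x y) (p ω)) / n) ?_ ?_ ?_ ?_ ?_ ?_ ?_ hu
  · intro e he
    have e1 : ∑ x : Fin u → Fin 4, ∑ y, D e x y *
        ((∑ ω ∈ Eᶜ, MvPolynomial.eval (f ω (Z x) (Z y)) (p ω)) / n) =
        (∑ ω ∈ Eᶜ, ∑ x : Fin u → Fin 4, ∑ y, D e x y *
          MvPolynomial.eval (f ω (Z x) (Z y)) (p ω)) / n := by
      rw [sum_comm' (t' := univ) (s' := fun _ => Eᶜ) (by simp), sum_div]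
      refine sum_congr rfl fun x _ => ?_
      rw [sum_comm, sum_div]
      refine sum_congr rfl fun y _ => ?_
      rw [mul_div_assoc', mul_sum]
    rw [e1, div_le_iff₀ hn0]
    calc ∑ ω ∈ Eᶜ, ∑ x : Fin u → Fin 4, ∑ y, D e x y *
          MvPolynomial.eval (f ω (Z x) (Z y)) (p ω) ≤
        ∑ _ω ∈ Eᶜ, ((((M + 1) * r) ^ T : ℕ) : ℝ) * 16 ^ u := by
          refine sum_le_sum fun ω hω => ?_
          rw [mem_compl, hE, mem_filter, not_and] at hω
          have h3 := hω (mem_univ _)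
          push Not at h3
          exact D_bound hr (f ω) h3 (p ω) (hp ω) (h0 ω) (h1 ω) he
      _ = (Eᶜ.card : ℝ) * (((((M + 1) * r) ^ T : ℕ) : ℝ) * 16 ^ u) := by
          rw [sum_const, nsmul_eq_mul]
      _ ≤ n * (((((M + 1) * r) ^ T : ℕ) : ℝ) * 16 ^ u) := by
          refine mul_le_mul_of_nonneg_right ?_ (by positivity)
          rw [← hEc]
          exact le_add_of_nonneg_left (Nat.cast_nonneg _)
      _ = _ := by ring
  · intro x y
    exact div_nonneg (sum_nonneg fun ω _ => h0 ω x y) hn0.le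
  · intro x y
    rw [div_le_one hn0, ← hEc]
    exact (hE2 x y).trans (le_add_of_nonneg_left (Nat.cast_nonneg _))
  · intro x y hxy
    rw [div_le_iff₀ hn0]
    have h3 := hdis x y hxy
    rw [hsplit] at h3
    have h4 := hE0 x y
    linarith
  · intro x y hxy
    rw [le_div_iff₀ hn0]
    have h3 := hint x y hxy
    rw [hsplit] at h3
    have h4 := hE1 x y
    linarith
  · have h3 : ((M + 1) * r) ^ T ≤ 2 ^ (L - 4) := by
      calc ((M + 1) * r) ^ T ≤ (2 ^ Nat.clog 2 ((M + 1) * r)) ^ T :=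
            Nat.pow_le_pow_left (Nat.le_pow_clog (by norm_num) _) _
        _ = 2 ^ (L - 4) := by
            rw [← pow_mul, hL, Nat.add_sub_cancel, mul_comm]
    have h4 : 243 * ((M + 1) * r) ^ T ≤ 3 ^ (L + 1) := by
      obtain ⟨L', rfl⟩ : ∃ L', L = L' + 4 := ⟨L - 4, by omega⟩
      rw [Nat.add_sub_cancel] at h3
      calc 243 * ((M + 1) * r) ^ T ≤ 243 * 2 ^ L' := Nat.mul_le_mul_left _ h3
        _ ≤ 243 * 3 ^ L' := Nat.mul_le_mul_left _ (Nat.pow_le_pow_left (by norm_num) _)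
        _ = 3 ^ (L' + 4 + 1) := by ring
    exact_mod_cast h4
  · omega

end Pool.Agent.Q202.AR
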