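import Pool.Agent.Q202.AR.Strong
import Pool.Agent.Q202.AR.Random
import Pool.Agent.Q202.RC.Sets

/-!
# Data structures which report intersections with polynomial output probabilities
-/

set_option autoImplicit false

open Finset

namespace Pool.Agent.Q202.AR

open Pool.Agent.Q202.RC (put put_left put_right card_lt)

/-- The functions of the second argument from which all polynomials of degree at most `T` in numbers
of rank at most `r` are combined. -/
theorem jointV {M r T : ℕ} (hr : 1 ≤ r) {X Y V : Type} (f : X → Y → Fin M → ℝ)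
    (hf : ∀ l, RankLe r (fun x y => f x y l)) (p : V → MvPolynomial (Fin M) ℝ)
    (hp : ∀ v, (p v).totalDegree ≤ T) :
    ∃ G : (Fin T → Option (Fin M)) × (Fin T → Fin r) → Y → ℝ, ∀ x v,
      (fun y => MvPolynomial.eval (f x y) (p v)) ∈ Submodule.span ℝ (Set.range G) := by
  classical
  choose g h hgh using hf
  obtain ⟨F, hF⟩ : ∃ F : Option (Fin M) → Fin r → X → ℝ, F = fun o a x =>
    match o with
    | none => if a = ⟨0, hr⟩ then 1 else 0
    | some l => g l a x := ⟨_, rfl⟩
  obtain ⟨H, hH⟩ : ∃ H : Option (Fin M) → Fin r → Y → ℝ, H = fun o a y =>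
    match o with
    | none => 1
    | some l => h l a y := ⟨_, rfl⟩
  have hb : ∀ (o : Option (Fin M)) x y, fac (f x y) o = ∑ a, F o a x * H o a y := by
    intro o x y
    cases o with
    | none =>
      rw [hF, hH]
      simp [fac]
    | some l =>
      rw [hF, hH]
      exact hgh l x y
  refine ⟨fun q y => ∏ t, H (q.1 t) (q.2 t) y, fun x v => ?_⟩
  have h1 : (fun y => MvPolynomial.eval (f x y) (p v)) =
      ∑ α ∈ (p v).support, (p v).coeff α • (fun y => α.prod (fun l n => f x y l ^ n)) := by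
    funext y
    rw [MvPolynomial.eval_eq, Finset.sum_apply]
    rfl
  rw [h1]
  refine Submodule.sum_mem _ fun α hα => Submodule.smul_mem _ _ ?_
  obtain ⟨L, hL1, hL2⟩ := exists_list α
  have hLT : L.length ≤ T := by
    rw [hL1]
    exact (MvPolynomial.le_totalDegree hα).trans (hp v)
  have h2 : (fun y => α.prod (fun l n => f x y l ^ n)) =
      ∑ τ : Fin T → Fin r, (∏ t : Fin T, F (L[(t : ℕ)]?) (τ t) x) •
        (fun y => ∏ t : Fin T, H (L[(t : ℕ)]?) (τ t) y) := by
    funext y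
    rw [← hL2, ← prod_fac _ L T hLT, Finset.sum_apply]
    have e1 : ∏ t : Fin T, fac (f x y) (L[(t : ℕ)]?) =
        ∏ t : Fin T, ∑ a, F (L[(t : ℕ)]?) a x * H (L[(t : ℕ)]?) a y :=
      prod_congr rfl fun t _ => hb (L[(t : ℕ)]?) x y
    rw [e1, prod_univ_sum, Fintype.piFinset_univ]
    refine sum_congr rfl fun τ _ => ?_
    rw [prod_mul_distrib]
    rfl
  rw [h2]
  refine Submodule.sum_mem _ fun τ _ => Submodule.smul_mem _ _ ?_
  exact Submodule.subset_span ⟨(fun t => L[(t : ℕ)]?, τ), rfl⟩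

variable {u : ℕ}

theorem D_span {ι : Type} [Fintype ι] (A : Finset (Fin u) → Finset (Fin u) → ℝ)
    (G : ι → Finset (Fin u) → ℝ) (hG : ∀ x, A x ∈ Submodule.span ℝ (Set.range G))
    (h0 : ∀ x y, 0 ≤ A x y) (h1 : ∀ x y, A x y ≤ 1) {e : ℕ → ℝ} (he : ∀ s, e s ^ 2 = 1) :
    ∑ x : Fin u → Fin 4, ∑ y, D e x y * A (Z x) (Z y) ≤ (Fintype.card ι : ℝ) * 16 ^ u := by
  classical
  have hG' : ∀ x : Fin u → Fin 4, (fun y : Fin u → Fin 4 => A (Z x) (Z y)) ∈
      Submodule.span ℝ (Set.range fun a (y : Fin u → Fin 4) => G a (Z y)) := by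
    intro x
    have h2 := Submodule.mem_map_of_mem (f := LinearMap.funLeft ℝ ℝ (Z : (Fin u → Fin 4) → _))
      (hG (Z x))
    rw [Submodule.map_span, ← Set.range_comp] at h2
    exact h2
  have h2 := trace_bound (D e) (fun x y : Fin u → Fin 4 => A (Z x) (Z y))
    (c := 16 ^ u) (by positivity) (fun y => by rw [D_orth he, if_pos rfl])
    (fun y z hyz => by rw [D_orth he, if_neg hyz]) _ hG' (fun x y => by
      have h3 := h0 (Z x) (Z y)
      have h4 := h1 (Z x) (Z y)
      nlinarith)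
  have hX : Fintype.card (Fin u → Fin 4) = 4 ^ u := by
    rw [Fintype.card_fun, Fintype.card_fin, Fintype.card_fin]
  rw [hX] at h2
  have h3 : ((4 ^ u : ℕ) : ℝ) ^ 2 = 16 ^ u := by
    push_cast
    rw [← pow_mul, mul_comm, pow_mul]
    norm_num
  rw [h3] at h2
  have hRR : (Fintype.card ι : ℝ) ≤ (Fintype.card ι : ℝ) ^ 2 := by
    have : Fintype.card ι ≤ Fintype.card ι ^ 2 := Nat.le_self_pow (by norm_num) _
    exact_mod_cast this
  refine le_of_abs_le (abs_le_of_sq_le_sq ?_ (by positivity))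
  refine h2.trans ?_
  have h4 : (0 : ℝ) ≤ 16 ^ u * 16 ^ u := by positivity
  nlinarith [mul_le_mul_of_nonneg_right hRR h4]

/-- The number of small sets. -/
theorem card_small (u K : ℕ) :
    ((univ : Finset (Finset (Fin u))).filter (fun O => O.card ≤ K)).card ≤ (u + 1) ^ K := by
  classical
  have h1 : (univ : Finset (Finset (Fin u))).filter (fun O => O.card ≤ K) ⊆
      (univ : Finset (Fin K → Option (Fin u))).image
        (fun g => univ.filter (fun i => ∃ t, g t = some i)) := by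
    intro O hO
    rw [mem_filter] at hO
    rw [mem_image]
    refine ⟨fun t => if h : (t : ℕ) < O.card then some (O.equivFin.symm ⟨t, h⟩ : Fin u) else none,
      mem_univ _, ?_⟩
    ext i
    rw [mem_filter]
    constructor
    · rintro ⟨-, t, ht⟩
      beta_reduce at ht
      by_cases h : (t : ℕ) < O.card
      · rw [dif_pos h] at ht
        rw [← Option.some.inj ht]
        exact (O.equivFin.symm ⟨t, h⟩).2
      · rw [dif_neg h] at ht
        exact absurd ht (by simp)
    · intro hi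
      refine ⟨mem_univ _, ⟨(O.equivFin ⟨i, hi⟩ : ℕ), (O.equivFin ⟨i, hi⟩).2.trans_le hO.2⟩, ?_⟩
      have h2 : ((⟨(O.equivFin ⟨i, hi⟩ : ℕ), (O.equivFin ⟨i, hi⟩).2.trans_le hO.2⟩ : Fin K) : ℕ) <
          O.card := (O.equivFin ⟨i, hi⟩).2
      beta_reduce
      rw [dif_pos h2]
      simp
  refine (card_le_card h1).trans (card_image_le.trans (le_of_eq ?_))
  rw [card_univ, Fintype.card_fun, Fintype.card_option, Fintype.card_fin, Fintype.card_fin]

/-- A bit as a real number. -/
def bits {M : ℕ} (β : Fin M → Bool) : Fin M → ℝ := fun l => if β l = true then 1 else 0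

theorem rank_const {X Y : Type} {r : ℕ} (hr : 1 ≤ r) (c : ℝ) :
    RankLe r (fun (_ : X) (_ : Y) => c) := by
  refine ⟨fun a _ => if a = ⟨0, hr⟩ then c else 0, fun _ _ => 1, fun x y => ?_⟩
  simp

open Classical in
/-- For every pair of sets many bits have large rank. -/
theorem rep_core {M r d m C : ℕ} (hr : 1 ≤ r) {Ω : Type} [Fintype Ω]
    (f : Ω → Finset (Fin u) → Finset (Fin u) → Fin M → Bool)
    (p : Ω → Finset (Fin u) → MvPolynomial (Fin M) ℝ) (hp : ∀ ω O, (p ω O).totalDegree ≤ C)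
    (h0 : ∀ ω (β : Fin M → Bool) O, 0 ≤ MvPolynomial.eval (bits β) (p ω O))
    (h1 : ∀ ω (β : Fin M → Bool), ∑ O, MvPolynomial.eval (bits β) (p ω O) ≤ 1)
    (hs : ∀ x y, (x ∩ y).card ≤ 16 * m → (Fintype.card Ω : ℝ) ≤
      2 * ∑ ω, MvPolynomial.eval (bits (f ω x y)) (p ω (x ∩ y)))
    (hB : (u + 1) ^ (16 * m) * ((M + 1) * r) ^ C * 2 ^ (23 * m) ≤ 3 ^ (d + 1)) (hm : 2 ≤ m)
    (hmd : m ≤ d) (hu : 6291456 * d ^ 2 ≤ u * m) :
    m * Fintype.card Ω ≤
      ∑ ω, (univ.filter (fun l => ¬ RankLe r (fun x y => bits (f ω x y) l))).card := by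
  obtain ⟨E, hE⟩ : ∃ E : Ω → Finset (Fin M), E = fun ω =>
    univ.filter (fun l => ¬ RankLe r (fun x y => bits (f ω x y) l)) := ⟨_, rfl⟩
  have hEr : ∀ ω, (univ.filter (fun l => ¬ RankLe r (fun x y => bits (f ω x y) l))) = E ω := by
    intro ω
    rw [hE]
  rw [sum_congr rfl fun ω _ => by rw [hEr ω]]
  by_contra hcon
  push Not at hcon
  obtain ⟨n, hn⟩ : ∃ n : ℝ, n = Fintype.card Ω := ⟨_, rfl⟩
  have hn0 : 0 < n := by
    rw [hn]
    have : 0 < Fintype.card Ω := by
      by_contra h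
      have h' : Fintype.card Ω = 0 := by omega
      rw [h', mul_zero] at hcon
      exact absurd hcon (Nat.not_lt_zero _)
    exact_mod_cast this
  rw [← hn] at hs
  -- the good members
  obtain ⟨S, hS⟩ : ∃ S, S = univ.filter (fun ω => (E ω).card ≤ 4 * m) := ⟨_, rfl⟩
  have hbad : 4 * (Sᶜ.card : ℝ) ≤ n := by
    have e1 : Sᶜ.card * (4 * m) ≤ ∑ ω, (E ω).card := by
      calc Sᶜ.card * (4 * m) = ∑ _ω ∈ Sᶜ, 4 * m := by rw [sum_const, smul_eq_mul]
        _ ≤ ∑ ω ∈ Sᶜ, (E ω).card := by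
            refine sum_le_sum fun ω hω => ?_
            rw [mem_compl, hS, mem_filter, not_and] at hω
            have := hω (mem_univ _)
            omega
        _ ≤ _ := sum_le_sum_of_subset (subset_univ _)
    have e2 : 4 * Sᶜ.card ≤ Fintype.card Ω := by
      refine Nat.le_of_mul_le_mul_left ?_ (by omega : 0 < m)
      have e3 : m * (4 * Sᶜ.card) = Sᶜ.card * (4 * m) := by ring
      rw [e3]
      exact e1.trans hcon.le
    rw [hn]
    exact_mod_cast e2
  have hSc : (S.card : ℝ) + (Sᶜ.card : ℝ) = n := by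
    rw [hn]
    exact_mod_cast card_add_card_compl S
  -- the sets which may be reported
  obtain ⟨Q, hQ⟩ : ∃ Q : Finset (Finset (Fin u)), Q = univ.filter (fun O =>
    8 * m ≤ O.card ∧ O.card ≤ 16 * m) := ⟨_, rfl⟩
  have hQc : Q.card ≤ (u + 1) ^ (16 * m) := by
    refine le_trans (card_le_card fun O hO => ?_) (card_small u (16 * m))
    rw [hQ, mem_filter] at hO
    exact mem_filter.2 ⟨mem_univ _, hO.2.2⟩
  -- the memory with guessed bits
  obtain ⟨g, hg⟩ : ∃ g : Ω → Finset (Fin M) → Finset (Fin u) → Finset (Fin u) → Fin M → Bool,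
    g = fun ω a x y l => if l ∈ E ω then decide (l ∈ a) else f ω x y l := ⟨_, rfl⟩
  obtain ⟨val, hval⟩ : ∃ val : Ω → Finset (Fin M) → Finset (Fin u) → Finset (Fin u) → ℝ,
    val = fun ω a x y => ∑ O ∈ Q, if O ⊆ x ∩ y then
      MvPolynomial.eval (bits (g ω a x y)) (p ω O) else 0 := ⟨_, rfl⟩
  have hv0 : ∀ ω a x y, 0 ≤ val ω a x y := by
    intro ω a x y
    rw [hval]
    refine sum_nonneg fun O _ => ?_
    by_cases h : O ⊆ x ∩ y
    · rw [if_pos h]
      exact h0 _ _ _
    · rw [if_neg h]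
  have hv1 : ∀ ω a x y, val ω a x y ≤ 1 := by
    intro ω a x y
    rw [hval]
    refine le_trans ?_ (h1 ω (g ω a x y))
    calc ∑ O ∈ Q, (if O ⊆ x ∩ y then MvPolynomial.eval (bits (g ω a x y)) (p ω O) else 0) ≤
        ∑ O ∈ Q, MvPolynomial.eval (bits (g ω a x y)) (p ω O) := by
          refine sum_le_sum fun O _ => ?_
          by_cases h : O ⊆ x ∩ y
          · rw [if_pos h]
          · rw [if_neg h]
            exact h0 _ _ _
      _ ≤ _ := sum_le_sum_of_subset_of_nonneg (subset_univ _) fun O _ _ => h0 _ _ _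
  have hvz : ∀ ω a x y, (x ∩ y).card < 8 * m → val ω a x y = 0 := by
    intro ω a x y hxy
    rw [hval]
    refine sum_eq_zero fun O hO => ?_
    rw [hQ, mem_filter] at hO
    rw [if_neg]
    intro h
    have := card_le_card h
    omega
  have hvD : ∀ ω a (e : ℕ → ℝ), (∀ s, e s ^ 2 = 1) →
      ∑ x : Fin u → Fin 4, ∑ y, D e x y * val ω a (Z x) (Z y) ≤
        (((u + 1) ^ (16 * m) * ((M + 1) * r) ^ C : ℕ) : ℝ) * 16 ^ u := by
    intro ω a e he
    obtain ⟨G, hG⟩ := jointV (T := C) hr (fun x y => bits (g ω a x y)) (fun l => by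
      by_cases hl : l ∈ E ω
      · have e1 : (fun x y => bits (g ω a x y) l) =
            fun (_ : Finset (Fin u)) (_ : Finset (Fin u)) => bits (fun l => decide (l ∈ a)) l := by
          funext x y
          rw [hg]
          unfold bits
          simp only [if_pos hl]
        rw [e1]
        exact rank_const hr _
      · have e1 : (fun x y => bits (g ω a x y) l) = fun x y => bits (f ω x y) l := by
          funext x y
          rw [hg]
          unfold bits
          simp only [if_neg hl]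
        rw [e1]
        by_contra h
        apply hl
        rw [hE]
        exact mem_filter.2 ⟨mem_univ _, h⟩) (p ω) (hp ω)
    have h2 := D_span (val ω a) (fun (q : Q × ((Fin C → Option (Fin M)) × (Fin C → Fin r)))
      (y : Finset (Fin u)) => if (q.1 : Finset (Fin u)) ⊆ y then G q.2 y else 0) (fun x => by
        have e1 : val ω a x = ∑ O : Q, (if (O : Finset (Fin u)) ⊆ x then (1 : ℝ) else 0) •
            (fun y => if (O : Finset (Fin u)) ⊆ y then
              MvPolynomial.eval (bits (g ω a x y)) (p ω O) else 0) := by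
          funext y
          rw [hval, Finset.sum_apply]
          show ∑ O ∈ Q, _ = _
          rw [← sum_coe_sort]
          refine sum_congr rfl fun O _ => ?_
          show _ = (if (O : Finset (Fin u)) ⊆ x then (1 : ℝ) else 0) *
            (if (O : Finset (Fin u)) ⊆ y then
              MvPolynomial.eval (bits (g ω a x y)) (p ω O) else 0)
          by_cases hx : (O : Finset (Fin u)) ⊆ x
          · by_cases hy : (O : Finset (Fin u)) ⊆ y
            · rw [if_pos hx, if_pos hy, if_pos (subset_inter hx hy), one_mul]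
            · rw [if_neg hy, mul_zero, if_neg]
              exact fun h => hy (h.trans inter_subset_right)
          · rw [if_neg hx, zero_mul, if_neg]
            exact fun h => hx (h.trans inter_subset_left)
        rw [e1]
        refine Submodule.sum_mem _ fun O _ => Submodule.smul_mem _ _ ?_
        have e2 := Submodule.mem_map_of_mem (f := (LinearMap.pi fun y : Finset (Fin u) =>
          (if (O : Finset (Fin u)) ⊆ y then (1 : ℝ) else 0) •
            (LinearMap.proj y : (Finset (Fin u) → ℝ) →ₗ[ℝ] ℝ))) (hG x O)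
        have e3 : (LinearMap.pi fun y : Finset (Fin u) =>
            (if (O : Finset (Fin u)) ⊆ y then (1 : ℝ) else 0) •
            (LinearMap.proj y : (Finset (Fin u) → ℝ) →ₗ[ℝ] ℝ))
            (fun y => MvPolynomial.eval (bits (g ω a x y)) (p ω O)) =
            (fun y => if (O : Finset (Fin u)) ⊆ y then
              MvPolynomial.eval (bits (g ω a x y)) (p ω O) else 0) := by
          funext y
          show (if (O : Finset (Fin u)) ⊆ y then (1 : ℝ) else 0) * _ = _
          by_cases hy : (O : Finset (Fin u)) ⊆ y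
          · rw [if_pos hy, if_pos hy, one_mul]
            rfl
          · rw [if_neg hy, if_neg hy, zero_mul]
        rw [e3] at e2
        refine (Submodule.map_span_le _ _ _).2 ?_ e2
        rintro _ ⟨c, rfl⟩
        refine Submodule.subset_span ⟨(O, c), ?_⟩
        funext y
        show (if (O : Finset (Fin u)) ⊆ y then G c y else 0) =
          (if (O : Finset (Fin u)) ⊆ y then (1 : ℝ) else 0) * G c y
        by_cases hy : (O : Finset (Fin u)) ⊆ y
        · rw [if_pos hy, if_pos hy, one_mul]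
        · rw [if_neg hy, if_neg hy, zero_mul]) (hv0 ω a) (hv1 ω a) he
    refine h2.trans (mul_le_mul_of_nonneg_right ?_ (by positivity))
    have e1 : Fintype.card (Q × ((Fin C → Option (Fin M)) × (Fin C → Fin r))) ≤
        (u + 1) ^ (16 * m) * ((M + 1) * r) ^ C := by
      rw [Fintype.card_prod, Fintype.card_prod, Fintype.card_fun, Fintype.card_fun,
        Fintype.card_fin, Fintype.card_fin, Fintype.card_option, Fintype.card_fin,
        Fintype.card_coe, ← mul_pow]
      exact Nat.mul_le_mul_right _ hQc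
    exact_mod_cast e1
  -- the average over the guesses
  obtain ⟨A1, hA1⟩ : ∃ A1 : Ω → Finset (Fin u) → Finset (Fin u) → ℝ, A1 = fun ω x y =>
    (∑ a ∈ (E ω).powerset, val ω a x y) / 2 ^ (E ω).card := ⟨_, rfl⟩
  have hA10 : ∀ ω x y, 0 ≤ A1 ω x y := by
    intro ω x y
    rw [hA1]
    exact div_nonneg (sum_nonneg fun a _ => hv0 ω a x y) (by positivity)
  have hA11 : ∀ ω x y, A1 ω x y ≤ 1 := by
    intro ω x y
    rw [hA1]
    show _ / _ ≤ _
    rw [div_le_one (by positivity)]
    calc ∑ a ∈ (E ω).powerset, val ω a x y ≤ ∑ _a ∈ (E ω).powerset, (1 : ℝ) :=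
          sum_le_sum fun a _ => hv1 ω a x y
      _ = 2 ^ (E ω).card := by
          rw [sum_const, card_powerset, nsmul_eq_mul, mul_one]
          push_cast
          rfl
  have hA1z : ∀ ω x y, (x ∩ y).card < 8 * m → A1 ω x y = 0 := by
    intro ω x y hxy
    rw [hA1]
    show _ / _ = _
    rw [sum_eq_zero fun a _ => hvz ω a x y hxy, zero_div]
  have hA1s : ∀ ω, (E ω).card ≤ 4 * m → ∀ x y, 8 * m ≤ (x ∩ y).card → (x ∩ y).card ≤ 16 * m →
      (1 / 2) ^ (4 * m) * MvPolynomial.eval (bits (f ω x y)) (p ω (x ∩ y)) ≤ A1 ω x y := by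
    intro ω hω x y hxy1 hxy2
    obtain ⟨b, hb⟩ : ∃ b, b = (E ω).filter (fun l => f ω x y l = true) := ⟨_, rfl⟩
    have e1 : g ω b x y = f ω x y := by
      rw [hg]
      funext l
      by_cases hl : l ∈ E ω
      · show (if l ∈ E ω then decide (l ∈ b) else f ω x y l) = _
        rw [if_pos hl]
        by_cases hf : f ω x y l = true
        · rw [hf]
          have : l ∈ b := by
            rw [hb]
            exact mem_filter.2 ⟨hl, hf⟩
          exact decide_eq_true this
        · rw [Bool.not_eq_true] at hf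
          rw [hf]
          have : l ∉ b := by
            rw [hb, mem_filter, hf]
            exact fun h => absurd h.2 (by simp)
          exact decide_eq_false this
      · show (if l ∈ E ω then decide (l ∈ b) else f ω x y l) = _
        rw [if_neg hl]
    have e2 : MvPolynomial.eval (bits (f ω x y)) (p ω (x ∩ y)) ≤ val ω b x y := by
      rw [hval]
      show _ ≤ ∑ O ∈ Q, _
      have e3 := single_le_sum (f := fun O => if O ⊆ x ∩ y then
        MvPolynomial.eval (bits (g ω b x y)) (p ω O) else 0) (s := Q) (fun O _ => by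
          show 0 ≤ (if O ⊆ x ∩ y then MvPolynomial.eval (bits (g ω b x y)) (p ω O) else 0)
          by_cases h : O ⊆ x ∩ y
          · rw [if_pos h]
            exact h0 _ _ _
          · rw [if_neg h]) (a := x ∩ y) (by
            rw [hQ]
            exact mem_filter.2 ⟨mem_univ _, hxy1, hxy2⟩)
      refine le_trans (le_of_eq ?_) e3
      show _ = (if x ∩ y ⊆ x ∩ y then MvPolynomial.eval (bits (g ω b x y)) (p ω (x ∩ y)) else 0)
      rw [if_pos (subset_refl _), e1]
    have e3 : val ω b x y ≤ ∑ a ∈ (E ω).powerset, val ω a x y :=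
      single_le_sum (fun a _ => hv0 ω a x y) (mem_powerset.2 (by
        rw [hb]
        exact filter_subset _ _))
    rw [hA1]
    show _ ≤ _ / _
    rw [le_div_iff₀ (by positivity)]
    refine le_trans ?_ (e2.trans e3)
    have e4 : (1 / 2 : ℝ) ^ (4 * m) * 2 ^ (E ω).card ≤ 1 := by
      calc (1 / 2 : ℝ) ^ (4 * m) * 2 ^ (E ω).card ≤ (1 / 2 : ℝ) ^ (4 * m) * 2 ^ (4 * m) :=
            mul_le_mul_of_nonneg_left (pow_le_pow_right₀ (by norm_num) hω) (by positivity)
        _ = 1 := by
            rw [← mul_pow]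
            norm_num
    have e5 := h0 ω (f ω x y) (x ∩ y)
    calc (1 / 2 : ℝ) ^ (4 * m) * MvPolynomial.eval (bits (f ω x y)) (p ω (x ∩ y)) *
          2 ^ (E ω).card = ((1 / 2 : ℝ) ^ (4 * m) * 2 ^ (E ω).card) *
            MvPolynomial.eval (bits (f ω x y)) (p ω (x ∩ y)) := by ring
      _ ≤ 1 * MvPolynomial.eval (bits (f ω x y)) (p ω (x ∩ y)) :=
          mul_le_mul_of_nonneg_right e4 e5
      _ = _ := one_mul _
  have hA1D : ∀ ω (e : ℕ → ℝ), (∀ s, e s ^ 2 = 1) →
      ∑ x : Fin u → Fin 4, ∑ y, D e x y * A1 ω (Z x) (Z y) ≤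
        (((u + 1) ^ (16 * m) * ((M + 1) * r) ^ C : ℕ) : ℝ) * 16 ^ u := by
    intro ω e he
    have e1 : ∑ x : Fin u → Fin 4, ∑ y, D e x y * A1 ω (Z x) (Z y) =
        (∑ a ∈ (E ω).powerset, ∑ x : Fin u → Fin 4, ∑ y, D e x y * val ω a (Z x) (Z y)) /
          2 ^ (E ω).card := by
      rw [sum_comm' (t' := univ) (s' := fun _ => (E ω).powerset) (by simp), sum_div]
      refine sum_congr rfl fun x _ => ?_
      rw [sum_comm, sum_div]
      refine sum_congr rfl fun y _ => ?_
      rw [hA1]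
      show _ * (_ / _) = _
      rw [mul_div_assoc', mul_sum]
    rw [e1, div_le_iff₀ (by positivity)]
    calc ∑ a ∈ (E ω).powerset, ∑ x : Fin u → Fin 4, ∑ y, D e x y * val ω a (Z x) (Z y) ≤
        ∑ _a ∈ (E ω).powerset,
          (((u + 1) ^ (16 * m) * ((M + 1) * r) ^ C : ℕ) : ℝ) * 16 ^ u :=
          sum_le_sum fun a _ => hvD ω a e he
      _ = _ := by
          rw [sum_const, card_powerset, nsmul_eq_mul]
          push_cast
          ring
  -- the average over the good members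
  refine strong (u := u) (d := d) (m := m)
    (B := (((u + 1) ^ (16 * m) * ((M + 1) * r) ^ C : ℕ) : ℝ))
    (fun x y => (∑ ω ∈ S, A1 ω x y) / n) ?_ ?_ ?_ ?_ ?_ (by exact_mod_cast hB) hm hmd hu
  · intro e he
    have e1 : ∑ x : Fin u → Fin 4, ∑ y, D e x y * ((∑ ω ∈ S, A1 ω (Z x) (Z y)) / n) =
        (∑ ω ∈ S, ∑ x : Fin u → Fin 4, ∑ y, D e x y * A1 ω (Z x) (Z y)) / n := by
      rw [sum_comm' (t' := univ) (s' := fun _ => S) (by simp), sum_div]
      refine sum_congr rfl fun x _ => ?_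
      rw [sum_comm, sum_div]
      refine sum_congr rfl fun y _ => ?_
      rw [mul_div_assoc', mul_sum]
    rw [e1, div_le_iff₀ hn0]
    calc ∑ ω ∈ S, ∑ x : Fin u → Fin 4, ∑ y, D e x y * A1 ω (Z x) (Z y) ≤
        ∑ _ω ∈ S, (((u + 1) ^ (16 * m) * ((M + 1) * r) ^ C : ℕ) : ℝ) * 16 ^ u :=
          sum_le_sum fun ω _ => hA1D ω e he
      _ = (S.card : ℝ) * ((((u + 1) ^ (16 * m) * ((M + 1) * r) ^ C : ℕ) : ℝ) * 16 ^ u) := by
          rw [sum_const, nsmul_eq_mul]
      _ ≤ n * ((((u + 1) ^ (16 * m) * ((M + 1) * r) ^ C : ℕ) : ℝ) * 16 ^ u) := by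
          refine mul_le_mul_of_nonneg_right ?_ (by positivity)
          rw [← hSc]
          exact le_add_of_nonneg_right (Nat.cast_nonneg _)
      _ = _ := by ring
  · intro x y
    exact div_nonneg (sum_nonneg fun ω _ => hA10 ω x y) hn0.le
  · intro x y
    rw [div_le_one hn0, ← hSc]
    calc ∑ ω ∈ S, A1 ω x y ≤ ∑ _ω ∈ S, (1 : ℝ) := sum_le_sum fun ω _ => hA11 ω x y
      _ = S.card := by rw [sum_const, nsmul_eq_mul, mul_one]
      _ ≤ _ := le_add_of_nonneg_right (Nat.cast_nonneg _)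
  · intro x y hxy
    show _ / _ = _
    rw [sum_eq_zero fun ω _ => hA1z ω x y hxy, zero_div]
  · intro x y hxy1 hxy2
    show _ ≤ _ / _
    rw [le_div_iff₀ hn0]
    have h2 := hs x y hxy2
    rw [← sum_add_sum_compl S] at h2
    have h3 : ∑ ω ∈ Sᶜ, MvPolynomial.eval (bits (f ω x y)) (p ω (x ∩ y)) ≤ Sᶜ.card := by
      calc ∑ ω ∈ Sᶜ, MvPolynomial.eval (bits (f ω x y)) (p ω (x ∩ y)) ≤ ∑ _ω ∈ Sᶜ, (1 : ℝ) := by
            refine sum_le_sum fun ω _ => ?_
            exact (single_le_sum (f := fun O => MvPolynomial.eval (bits (f ω x y)) (p ω O))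
              (fun O _ => h0 ω _ O) (mem_univ (x ∩ y))).trans (h1 ω _)
        _ = _ := by rw [sum_const, nsmul_eq_mul, mul_one]
    have h4 : (1 / 2 : ℝ) ^ (4 * m) *
        ∑ ω ∈ S, MvPolynomial.eval (bits (f ω x y)) (p ω (x ∩ y)) ≤ ∑ ω ∈ S, A1 ω x y := by
      rw [mul_sum]
      refine sum_le_sum fun ω hω => ?_
      rw [hS, mem_filter] at hω
      exact hA1s ω hω.2 x y hxy1 hxy2
    refine le_trans ?_ h4
    have h5 : n / 4 ≤ ∑ ω ∈ S, MvPolynomial.eval (bits (f ω x y)) (p ω (x ∩ y)) := by linarith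
    have h6 : (1 / 2 : ℝ) ^ (4 * m + 2) * n = (1 / 2 : ℝ) ^ (4 * m) * (n / 4) := by
      rw [pow_add]
      ring
    rw [h6]
    exact mul_le_mul_of_nonneg_left h5 (by positivity)

variable {κ M : ℕ}

/-- A data structure with `M` bits for families of `κ` subsets of `{0, …, u - 1}`. The query `i, j`
reports a set. The probability that it reports `O` is given by a polynomial in the bits. -/
structure ReportDS (κ u M : ℕ) where
  mem : (Fin κ → Finset (Fin u)) → Fin M → Bool
  query : Fin κ → Fin κ → Finset (Fin u) → MvPolynomial (Fin M) ℝ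

/-- The probability that the query `i, j` reports `O`, if the memory contains the bits `β`. -/
noncomputable def ReportDS.prob (D : ReportDS κ u M) (i j : Fin κ) (β : Fin M → Bool)
    (O : Finset (Fin u)) : ℝ :=
  MvPolynomial.eval (bits β) (D.query i j O)

/-- The bit `l` entangles the sets `i` and `j` at `F`: as a function of these two sets, the others
being as in `F`, it has real rank larger than `r`. -/
def ReportDS.Entangles (D : ReportDS κ u M) (r : ℕ) (F : Fin κ → Finset (Fin u)) (i j : Fin κ)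
    (l : Fin M) : Prop :=
  ¬ RankLe r (fun x y => bits (D.mem (put F i j x y)) l)

/-- The polynomials of the random structure `D ω`, `ω` in `Ω`, have degree at most `t`; they are
probabilities for all contents of the memory; if the sets `i` and `j` have at most `s` common
elements, then their intersection is reported with probability at least `1 / 2`. -/
def Reports {Ω : Type} [Fintype Ω] (D : Ω → ReportDS κ u M) (t s : ℕ) : Prop :=
  (∀ ω i j O, i < j → ((D ω).query i j O).totalDegree ≤ t) ∧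
  (∀ ω i j β, i < j → (∀ O, 0 ≤ (D ω).prob i j β O) ∧ ∑ O, (D ω).prob i j β O ≤ 1) ∧
  (∀ F i j, i < j → (F i ∩ F j).card ≤ s →
    (Fintype.card Ω : ℝ) ≤ 2 * ∑ ω, (D ω).prob i j ((D ω).mem F) (F i ∩ F j))

open Classical in
theorem report_pair {M r d m t : ℕ} (hr : 1 ≤ r)
    (hB : (u + 1) ^ (16 * m) * ((M + 1) * r) ^ t * 2 ^ (23 * m) ≤ 3 ^ (d + 1)) (hm : 2 ≤ m)
    (hmd : m ≤ d) (hu : 6291456 * d ^ 2 ≤ u * m) {Ω : Type} [Fintype Ω]
    {D : Ω → ReportDS κ u M} (hD : Reports D t (16 * m)) (F : Fin κ → Finset (Fin u))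
    {i j : Fin κ} (hij : i < j) :
    m * Fintype.card Ω ≤ ∑ ω, (univ.filter (fun l => (D ω).Entangles r F i j l)).card := by
  obtain ⟨h1, h2, h3⟩ := hD
  have key := rep_core hr (fun ω x y => (D ω).mem (put F i j x y)) (fun ω => (D ω).query i j)
    (fun ω O => h1 ω i j O hij) (fun ω β O => (h2 ω i j β hij).1 O)
    (fun ω β => (h2 ω i j β hij).2) (fun x y hxy => by
      have h4 := h3 (put F i j x y) i j hij (by
        rw [put_left F hij, put_right]
        exact hxy)
      rw [put_left F hij, put_right] at h4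
      exact h4) hB hm hmd hu
  refine key.trans (sum_le_sum fun ω _ => card_le_card fun l hl => ?_)
  rw [mem_filter] at hl ⊢
  exact hl

theorem report_bound (N T C M r L : ℕ) (hT : 1 ≤ T) (hr : 1 ≤ r)
    (hL : L = Nat.clog 2 ((M + 1) * r * (N + 1)) + 1)
    (hN : 6291456 * (C + 78) ^ 2 * L ^ 2 * T ≤ N) :
    ∃ κ u : ℕ, κ * u ≤ N ∧ ∀ (Ω : Type) [Fintype Ω] (D : Ω → ReportDS κ u M),
      Reports D (C * T) (32 * T) → ∀ F : Fin κ → Finset (Fin u),
        N ^ 2 * Nat.card Ω ≤ 10 ^ 14 * (C + 78) ^ 4 * L ^ 4 * T *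
          Nat.card {q : Ω × (Fin κ × Fin κ) × Fin M //
            q.2.1.1 < q.2.1.2 ∧ (D q.1).Entangles r F q.2.1.1 q.2.1.2 q.2.2} := by
  classical
  have hL1 : 1 ≤ L := by omega
  obtain ⟨d, hd⟩ : ∃ d, d = L * T * (C + 78) := ⟨_, rfl⟩
  obtain ⟨u, hu⟩ : ∃ u, u = 3145728 * (C + 78) ^ 2 * L ^ 2 * T := ⟨_, rfl⟩
  have hu1 : 1 ≤ u := by
    rw [hu]
    have h2 : 1 ≤ (C + 78) ^ 2 := Nat.one_le_pow _ _ (by omega)
    have h3 : 1 ≤ L ^ 2 := Nat.one_le_pow _ _ hL1
    calc 1 ≤ 3145728 * 1 * 1 * 1 := by norm_num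
      _ ≤ _ := Nat.mul_le_mul (Nat.mul_le_mul (Nat.mul_le_mul_left _ h2) h3) hT
  have hN2u : 2 * u ≤ N := by
    refine le_trans (le_of_eq ?_) hN
    rw [hu]
    ring
  obtain ⟨κ, hκ⟩ : ∃ κ, κ = N / u := ⟨_, rfl⟩
  have hκ2 : 2 ≤ κ := by
    rw [hκ, Nat.le_div_iff_mul_le (by omega)]
    exact hN2u
  refine ⟨κ, u, by rw [hκ]; exact Nat.div_mul_le_self N u, fun Ω _ D hD F => ?_⟩
  obtain ⟨P, hP⟩ : ∃ P : Finset (Fin κ × Fin κ), P = univ.filter (fun q => q.1 < q.2) := ⟨_, rfl⟩
  have hPc : 2 * P.card + κ = κ * κ := by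
    rw [hP]
    exact card_lt κ
  have hB : (u + 1) ^ (16 * (2 * T)) * ((M + 1) * r) ^ (C * T) * 2 ^ (23 * (2 * T)) ≤
      3 ^ (d + 1) := by
    have h1 : (M + 1) * r * (N + 1) ≤ 2 ^ L := by
      refine (Nat.le_pow_clog (by norm_num : 1 < 2) _).trans ?_
      exact Nat.pow_le_pow_right (by norm_num) (by omega)
    have h2 : u + 1 ≤ 2 ^ L := by
      refine le_trans ?_ h1
      calc u + 1 ≤ 1 * (N + 1) := by omega
        _ ≤ (M + 1) * r * (N + 1) := Nat.mul_le_mul_right _ (Nat.mul_pos (by omega) hr)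
    have h3 : (M + 1) * r ≤ 2 ^ L := by
      refine le_trans ?_ h1
      exact Nat.le_mul_of_pos_right _ (by omega)
    calc (u + 1) ^ (16 * (2 * T)) * ((M + 1) * r) ^ (C * T) * 2 ^ (23 * (2 * T)) ≤
        (2 ^ L) ^ (16 * (2 * T)) * (2 ^ L) ^ (C * T) * (2 ^ L) ^ (23 * (2 * T)) := by
          refine Nat.mul_le_mul (Nat.mul_le_mul (Nat.pow_le_pow_left h2 _)
            (Nat.pow_le_pow_left h3 _)) (Nat.pow_le_pow_left ?_ _)
          calc 2 = 2 ^ 1 := (pow_one 2).symm
            _ ≤ 2 ^ L := Nat.pow_le_pow_right (by norm_num) hL1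
      _ = 2 ^ d := by
          rw [← pow_add, ← pow_add, ← pow_mul, hd]
          congr 1
          ring
      _ ≤ 3 ^ d := Nat.pow_le_pow_left (by norm_num) _
      _ ≤ 3 ^ (d + 1) := Nat.pow_le_pow_right (by norm_num) (by omega)
  have hmd : 2 * T ≤ d := by
    rw [hd]
    calc 2 * T = 1 * T * 2 := by ring
      _ ≤ L * T * (C + 78) := Nat.mul_le_mul (Nat.mul_le_mul_right _ hL1) (by omega)
  have hdu : 6291456 * d ^ 2 ≤ u * (2 * T) := by
    rw [hd, hu]
    refine le_of_eq ?_
    ring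
  have hD' : Reports D (C * T) (16 * (2 * T)) := by
    have : 16 * (2 * T) = 32 * T := by ring
    rw [this]
    exact hD
  have hpairs : P.card * (2 * T * Fintype.card Ω) ≤
      (univ.filter (fun q : Ω × (Fin κ × Fin κ) × Fin M =>
        q.2.1.1 < q.2.1.2 ∧ (D q.1).Entangles r F q.2.1.1 q.2.1.2 q.2.2)).card := by
    calc P.card * (2 * T * Fintype.card Ω) = ∑ _q ∈ P, 2 * T * Fintype.card Ω := by
          rw [sum_const, smul_eq_mul]
      _ ≤ ∑ q ∈ P, ∑ ω, (univ.filter (fun l => (D ω).Entangles r F q.1 q.2 l)).card := by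
          refine sum_le_sum fun q hq => ?_
          rw [hP, mem_filter] at hq
          exact report_pair hr hB (by omega) hmd hdu hD' F hq.2
      _ = ((P ×ˢ (univ : Finset Ω)).sigma (fun z =>
            univ.filter (fun l => (D z.2).Entangles r F z.1.1 z.1.2 l))).card := by
          rw [card_sigma, sum_product]
      _ ≤ _ := by
          refine card_le_card_of_injOn (fun z => (z.1.2, z.1.1, z.2)) (fun z hz => ?_)
            (fun z _ z' _ h => ?_)
          · rw [mem_coe, mem_sigma, mem_product, hP, mem_filter, mem_filter] at hz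
            rw [mem_coe, mem_filter]
            exact ⟨mem_univ _, hz.1.1.2, hz.2.2⟩
          · have a1 : z.1.2 = z'.1.2 := congrArg Prod.fst h
            have a2 : (z.1.1, z.2) = (z'.1.1, z'.2) := congrArg Prod.snd h
            obtain ⟨a3, a4⟩ := Prod.mk.inj a2
            exact Sigma.ext (Prod.ext a3 a1) (heq_of_eq a4)
  have hN2 : N ^ 2 ≤ 9 * u ^ 2 * P.card := by
    have e1 : N < u * (κ + 1) := by
      rw [hκ]
      exact Nat.lt_mul_div_succ N (by omega)
    have e2 : 2 * N ≤ 3 * (κ * u) := by nlinarith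
    have e3 : κ * κ ≤ 4 * P.card := by nlinarith
    have e4 : (2 * N) ^ 2 ≤ (3 * (κ * u)) ^ 2 := Nat.pow_le_pow_left e2 2
    have e5 : (3 * (κ * u)) ^ 2 = 9 * u ^ 2 * (κ * κ) := by ring
    have e6 : 9 * u ^ 2 * (κ * κ) ≤ 9 * u ^ 2 * (4 * P.card) := Nat.mul_le_mul_left _ e3
    have e7 : (2 * N) ^ 2 = 4 * N ^ 2 := by ring
    have e8 : 9 * u ^ 2 * (4 * P.card) = 4 * (9 * u ^ 2 * P.card) := by ring
    omega
  rw [Nat.card_eq_fintype_card, Nat.card_eq_fintype_card, Fintype.card_subtype]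
  refine Nat.le_of_mul_le_mul_left ?_ (by omega : 0 < 2 * T)
  have hc : 9 * u ^ 2 ≤ 2 * T * (10 ^ 14 * (C + 78) ^ 4 * L ^ 4 * T) := by
    rw [hu]
    calc 9 * (3145728 * (C + 78) ^ 2 * L ^ 2 * T) ^ 2 =
        89060441849856 * ((C + 78) ^ 4 * L ^ 4 * T ^ 2) := by ring
      _ ≤ (2 * 10 ^ 14) * ((C + 78) ^ 4 * L ^ 4 * T ^ 2) :=
        Nat.mul_le_mul_right _ (by norm_num)
      _ = _ := by ring
  calc 2 * T * (N ^ 2 * Fintype.card Ω) ≤ 2 * T * (9 * u ^ 2 * P.card * Fintype.card Ω) :=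
        Nat.mul_le_mul_left _ (Nat.mul_le_mul_right _ hN2)
    _ = 9 * u ^ 2 * (P.card * (2 * T * Fintype.card Ω)) := by ring
    _ ≤ 9 * u ^ 2 * _ := Nat.mul_le_mul_left _ hpairs
    _ ≤ 2 * T * (10 ^ 14 * (C + 78) ^ 4 * L ^ 4 * T) * _ := Nat.mul_le_mul_right _ hc
    _ = _ := by rw [mul_assoc]

end Pool.Agent.Q202.AR
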