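import Pool.Agent.Q202.AR.Random
import Pool.Agent.Q202.RC.Sets
import Pool.Agent.Q202.RC.Sums

/-!
# Data structures whose queries are approximating polynomials
-/

set_option autoImplicit false

open Finset

namespace Pool.Agent.Q202.AR

open Pool.Agent.Q202.RC (put put_left put_right card_lt IsSum arr₁ arr₂ isSum_iff card_arr₁
  card_arr₂ le_sq₁ le_sq₂)

variable {k u M n : ℕ}

/-- A data structure with `M` real numbers for families of `k` subsets of `{0, …, u - 1}`. The query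
`i, j` evaluates a polynomial in the numbers of the memory. -/
structure SetDS (k u M : ℕ) where
  mem : (Fin k → Finset (Fin u)) → Fin M → ℝ
  query : Fin k → Fin k → MvPolynomial (Fin M) ℝ

/-- The value of the query `i, j` for the family `F`. -/
noncomputable def SetDS.value (D : SetDS k u M) (F : Fin k → Finset (Fin u)) (i j : Fin k) : ℝ :=
  MvPolynomial.eval (D.mem F) (D.query i j)

/-- The number `l` of the memory entangles the sets `i` and `j` at `F`: as a function of these two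
sets, the others being as in `F`, it has rank larger than `r`. -/
def SetDS.Entangles (D : SetDS k u M) (r : ℕ) (F : Fin k → Finset (Fin u)) (i j : Fin k)
    (l : Fin M) : Prop :=
  ¬ RankLe r (fun x y => D.mem (put F i j x y) l)

/-- The random structure `D ω`, `ω` in `Ω`, uses polynomials of degree at most `T`, whose values are
between `0` and `1`, on the average at least `2 / 3` if the sets `i` and `j` intersect, and on the
average at most `1 / 3` if they are disjoint. -/
def SolvesSets {Ω : Type} [Fintype Ω] (D : Ω → SetDS k u M) (T : ℕ) : Prop :=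
  (∀ ω i j, i < j → ((D ω).query i j).totalDegree ≤ T) ∧
  (∀ ω F i j, i < j → 0 ≤ (D ω).value F i j ∧ (D ω).value F i j ≤ 1) ∧
  (∀ F i j, i < j → (F i ∩ F j).Nonempty →
    2 * (Fintype.card Ω : ℝ) ≤ 3 * ∑ ω, (D ω).value F i j) ∧
  (∀ F i j, i < j → Disjoint (F i) (F j) →
    3 * ∑ ω, (D ω).value F i j ≤ (Fintype.card Ω : ℝ))

open Classical in
theorem count {Ω Q : Type} [Fintype Ω] [Fintype Q] [DecidableEq Q] (S : Finset Q) (Ent : Ω → Q → Fin M → Prop)
    (h : ∀ q ∈ S, Fintype.card Ω ≤ 8 * (univ.filter (fun ω => ∃ l, Ent ω q l)).card) :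
    S.card * Fintype.card Ω ≤ 8 *
      (univ.filter (fun z : Ω × Q × Fin M => z.2.1 ∈ S ∧ Ent z.1 z.2.1 z.2.2)).card := by
  have e1 : ∑ q ∈ S, (univ.filter (fun ω => ∃ l, Ent ω q l)).card ≤
      (univ.filter (fun z : Ω × Q × Fin M => z.2.1 ∈ S ∧ Ent z.1 z.2.1 z.2.2)).card := by
    rw [← card_sigma]
    have hch : ∀ z : (_ : Q) × Ω, ∃ l : Option (Fin M),
        (∃ l', Ent z.2 z.1 l') → ∃ l', l = some l' ∧ Ent z.2 z.1 l' := by
      intro z
      by_cases hz : ∃ l', Ent z.2 z.1 l'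
      · obtain ⟨l', hl'⟩ := hz
        exact ⟨some l', fun _ => ⟨l', rfl, hl'⟩⟩
      · exact ⟨none, fun h => absurd h hz⟩
    choose c hc using hch
    rw [← card_image_of_injective
        (univ.filter (fun z : Ω × Q × Fin M => z.2.1 ∈ S ∧ Ent z.1 z.2.1 z.2.2))
      (f := fun q => (q.1, q.2.1, some q.2.2)) (fun q q' h => by
        have a1 : q.1 = q'.1 := (Prod.mk.inj h).1
        have a2 := (Prod.mk.inj h).2
        have a3 : q.2.1 = q'.2.1 := (Prod.mk.inj a2).1
        exact Prod.ext a1 (Prod.ext a3 (Option.some.inj (Prod.mk.inj a2).2)))]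
    refine card_le_card_of_injOn (fun z => (z.2, z.1, c z)) (fun z hz => ?_)
      (fun z _ z' _ h => ?_)
    · rw [mem_coe, mem_sigma, mem_filter] at hz
      obtain ⟨l', h1, h2⟩ := hc z hz.2.2
      rw [mem_coe, mem_image]
      refine ⟨(z.2, z.1, l'), mem_filter.2 ⟨mem_univ _, hz.1, h2⟩, ?_⟩
      show (z.2, z.1, some l') = (z.2, z.1, c z)
      rw [h1]
    · have a1 : z.2 = z'.2 := congrArg Prod.fst h
      have a2 : (z.1, c z) = (z'.1, c z') := congrArg Prod.snd h
      have a3 : z.1 = z'.1 := congrArg Prod.fst a2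
      exact Sigma.ext a3 (heq_of_eq a1)
  calc S.card * Fintype.card Ω = ∑ _q ∈ S, Fintype.card Ω := by
        rw [sum_const, smul_eq_mul]
    _ ≤ ∑ q ∈ S, 8 * (univ.filter (fun ω => ∃ l, Ent ω q l)).card := sum_le_sum h
    _ ≤ _ := by
        rw [← mul_sum]
        exact Nat.mul_le_mul_left _ e1

open Classical in
theorem pair_bound {T r L : ℕ} (hr : 1 ≤ r) (hL : L = T * Nat.clog 2 ((M + 1) * r) + 4)
    (hu : 100 * L ^ 2 ≤ u) {Ω : Type} [Fintype Ω]
    {D : Ω → SetDS k u M} (hD : SolvesSets D T) (F : Fin k → Finset (Fin u)) {i j : Fin k}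
    (hij : i < j) :
    Fintype.card Ω ≤ 8 * (univ.filter (fun ω => ∃ l, (D ω).Entangles r F i j l)).card := by
  obtain ⟨h1, h2, h3, h4⟩ := hD
  have key := random_core hr hL hu (fun ω x y => (D ω).mem (put F i j x y))
    (fun ω => (D ω).query i j) (fun ω => h1 ω i j hij)
    (fun ω x y => (h2 ω (put F i j x y) i j hij).1)
    (fun ω x y => (h2 ω (put F i j x y) i j hij).2)
    (fun x y hxy => h3 (put F i j x y) i j hij (by
      rw [put_left F hij, put_right]
      exact hxy))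
    (fun x y hxy => h4 (put F i j x y) i j hij (by
      rw [put_left F hij, put_right]
      exact hxy))
  refine key.trans (Nat.mul_le_mul_left _ (card_le_card fun ω hω => ?_))
  rw [mem_filter] at hω ⊢
  exact hω

theorem sets_bound (N T M r L : ℕ) (hr : 1 ≤ r)
    (hL : L = T * Nat.clog 2 ((M + 1) * r) + 4) (hN : 200 * L ^ 2 ≤ N) :
    ∃ k u : ℕ, k * u ≤ N ∧ ∀ (Ω : Type) [Fintype Ω] (D : Ω → SetDS k u M), SolvesSets D T →
      ∀ F : Fin k → Finset (Fin u),
        N ^ 2 * Nat.card Ω ≤ 720000 * L ^ 4 *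
          Nat.card {q : Ω × (Fin k × Fin k) × Fin M //
            q.2.1.1 < q.2.1.2 ∧ (D q.1).Entangles r F q.2.1.1 q.2.1.2 q.2.2} := by
  classical
  obtain ⟨u, hu⟩ : ∃ u, u = 100 * L ^ 2 := ⟨_, rfl⟩
  have hL1 : 1 ≤ L := by omega
  have hu1 : 1 ≤ u := by
    rw [hu]
    have : 1 ≤ L ^ 2 := Nat.one_le_pow _ _ hL1
    omega
  obtain ⟨k, hk⟩ : ∃ k, k = N / u := ⟨_, rfl⟩
  refine ⟨k, u, by rw [hk]; exact Nat.div_mul_le_self N u, fun Ω _ D hD F => ?_⟩
  have hk2 : 2 ≤ k := by
    rw [hk, Nat.le_div_iff_mul_le (by omega)]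
    omega
  obtain ⟨P, hP⟩ : ∃ P : Finset (Fin k × Fin k), P = univ.filter (fun q => q.1 < q.2) := ⟨_, rfl⟩
  have hPc : 2 * P.card + k = k * k := by
    rw [hP]
    exact card_lt k
  have hpairs := count P (fun ω q l => (D ω).Entangles r F q.1 q.2 l) (fun q hq => by
    rw [hP, mem_filter] at hq
    exact pair_bound hr hL hu.ge hD F hq.2)
  have hN2 : N ^ 2 ≤ 9 * u ^ 2 * P.card := by
    have e1 : N < u * (k + 1) := by
      rw [hk]
      exact Nat.lt_mul_div_succ N (by omega)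
    have e2 : 2 * N ≤ 3 * (k * u) := by nlinarith
    have e3 : k * k ≤ 4 * P.card := by nlinarith
    have e4 : (2 * N) ^ 2 ≤ (3 * (k * u)) ^ 2 := Nat.pow_le_pow_left e2 2
    have e5 : (3 * (k * u)) ^ 2 = 9 * u ^ 2 * (k * k) := by ring
    have e6 : 9 * u ^ 2 * (k * k) ≤ 9 * u ^ 2 * (4 * P.card) := Nat.mul_le_mul_left _ e3
    have e7 : (2 * N) ^ 2 = 4 * N ^ 2 := by ring
    have e8 : 9 * u ^ 2 * (4 * P.card) = 4 * (9 * u ^ 2 * P.card) := by ring
    omega
  rw [Nat.card_eq_fintype_card, Nat.card_eq_fintype_card, Fintype.card_subtype]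
  have hpairs' : P.card * Fintype.card Ω ≤ 8 *
      (univ.filter (fun q : Ω × (Fin k × Fin k) × Fin M =>
        q.2.1.1 < q.2.1.2 ∧ (D q.1).Entangles r F q.2.1.1 q.2.1.2 q.2.2)).card := by
    refine hpairs.trans (Nat.mul_le_mul_left _ (card_le_card fun z hz => ?_))
    rw [mem_filter, hP, mem_filter] at hz
    exact mem_filter.2 ⟨mem_univ _, hz.2.1.2, hz.2.2⟩
  have hc : 9 * u ^ 2 * 8 = 720000 * L ^ 4 := by
    rw [hu]
    ring
  calc N ^ 2 * Fintype.card Ω ≤ 9 * u ^ 2 * P.card * Fintype.card Ω :=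
        Nat.mul_le_mul_right _ hN2
    _ = 9 * u ^ 2 * (P.card * Fintype.card Ω) := by ring
    _ ≤ 9 * u ^ 2 * (8 * _) := Nat.mul_le_mul_left _ hpairs'
    _ = _ := by rw [← mul_assoc, hc]

/-- A data structure with `M` real numbers for pairs of finite sets of natural numbers. The query
`z` evaluates a polynomial in the numbers of the memory. -/
structure SumDS (M : ℕ) where
  mem : Finset ℕ → Finset ℕ → Fin M → ℝ
  query : ℕ → MvPolynomial (Fin M) ℝ

/-- The value of the query `z` for the arrays `A` and `B`. -/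
noncomputable def SumDS.value (D : SumDS M) (A B : Finset ℕ) (z : ℕ) : ℝ :=
  MvPolynomial.eval (D.mem A B) (D.query z)

/-- The number `l` of the memory entangles the block `i` of the first array and the block `j` of the
second array at `X`, `Y`: as a function of the contents of these two blocks, the other blocks being
as in `X` and `Y`, it has rank larger than `r`. -/
def SumDS.Entangles (D : SumDS M) (r : ℕ) (X Y : Fin k → Finset (Fin u)) (i j : Fin k)
    (l : Fin M) : Prop :=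
  ¬ RankLe r (fun x y => D.mem (arr₁ (Function.update X i x)) (arr₂ (Function.update Y j y)) l)

/-- The random structure `D ω`, `ω` in `Ω`, solves 3SUM-Indexing for sets of at most `n` numbers
from `0, …, n ^ 2`: it uses polynomials of degree at most `T`, whose values are between `0` and `1`,
on the average at least `2 / 3` if `z` is a sum, and on the average at most `1 / 3` if it is not. -/
def SolvesSums {Ω : Type} [Fintype Ω] (D : Ω → SumDS M) (n T : ℕ) : Prop :=
  (∀ ω z, ((D ω).query z).totalDegree ≤ T) ∧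
  ∀ A B : Finset ℕ, A.card ≤ n → B.card ≤ n → (∀ a ∈ A, a ≤ n ^ 2) → (∀ b ∈ B, b ≤ n ^ 2) →
    ∀ z, (∀ ω, 0 ≤ (D ω).value A B z ∧ (D ω).value A B z ≤ 1) ∧
      (IsSum A B z → 2 * (Fintype.card Ω : ℝ) ≤ 3 * ∑ ω, (D ω).value A B z) ∧
      (¬ IsSum A B z → 3 * ∑ ω, (D ω).value A B z ≤ (Fintype.card Ω : ℝ))

open Classical in
theorem sums_pair {T r L : ℕ} (hr : 1 ≤ r) (hL : L = T * Nat.clog 2 ((M + 1) * r) + 4)
    (hu : 100 * L ^ 2 ≤ u) (hu2 : 2 ≤ u) (hn : k * u ≤ n) {Ω : Type} [Fintype Ω]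
    {D : Ω → SumDS M} (hD : SolvesSums D n T) (X Y : Fin k → Finset (Fin u)) (i j : Fin k) :
    Fintype.card Ω ≤ 8 * (univ.filter (fun ω => ∃ l, (D ω).Entangles r X Y i j l)).card := by
  obtain ⟨h1, h2⟩ := hD
  have h3 : ∀ x y : Finset (Fin u), IsSum (arr₁ (Function.update X i x))
      (arr₂ (Function.update Y j y)) (2 * u * ((i : ℕ) + k * j) + (u - 1)) ↔ (x ∩ y).Nonempty := by
    intro x y
    rw [isSum_iff _ _ i j (by omega), Function.update_self, Function.update_self]
  have h4 := fun x y : Finset (Fin u) => h2 (arr₁ (Function.update X i x))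
    (arr₂ (Function.update Y j y)) ((card_arr₁ _).trans hn) ((card_arr₂ _).trans hn)
    (le_sq₁ _ hu2 hn) (le_sq₂ _ hu2 hn) (2 * u * ((i : ℕ) + k * j) + (u - 1))
  have key := random_core hr hL hu (fun ω x y => (D ω).mem (arr₁ (Function.update X i x))
      (arr₂ (Function.update Y j y)))
    (fun ω => (D ω).query (2 * u * ((i : ℕ) + k * j) + (u - 1))) (fun ω => h1 ω _)
    (fun ω x y => ((h4 x y).1 ω).1) (fun ω x y => ((h4 x y).1 ω).2)
    (fun x y hxy => (h4 x y).2.1 ((h3 x y).2 hxy))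
    (fun x y hxy => (h4 x y).2.2 (by
      rw [h3, not_nonempty_iff_eq_empty]
      exact disjoint_iff_inter_eq_empty.1 hxy))
  refine key.trans (Nat.mul_le_mul_left _ (card_le_card fun ω hω => ?_))
  rw [mem_filter] at hω ⊢
  exact hω

theorem sums_bound (n T M r L : ℕ) (hr : 1 ≤ r)
    (hL : L = T * Nat.clog 2 ((M + 1) * r) + 4) (hn : 100 * L ^ 2 ≤ n) :
    ∃ k u : ℕ, k * u ≤ n ∧ ∀ (Ω : Type) [Fintype Ω] (D : Ω → SumDS M), SolvesSums D n T →
      ∀ X Y : Fin k → Finset (Fin u),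
        n ^ 2 * Nat.card Ω ≤ 320000 * L ^ 4 *
          Nat.card {q : Ω × (Fin k × Fin k) × Fin M //
            (D q.1).Entangles r X Y q.2.1.1 q.2.1.2 q.2.2} := by
  classical
  obtain ⟨u, hu⟩ : ∃ u, u = 100 * L ^ 2 := ⟨_, rfl⟩
  have hL1 : 1 ≤ L := by omega
  have hu1 : 2 ≤ u := by
    rw [hu]
    have : 1 ≤ L ^ 2 := Nat.one_le_pow _ _ hL1
    omega
  obtain ⟨k, hk⟩ : ∃ k, k = n / u := ⟨_, rfl⟩
  have hku : k * u ≤ n := by
    rw [hk]
    exact Nat.div_mul_le_self n u
  refine ⟨k, u, hku, fun Ω _ D hD X Y => ?_⟩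
  have hk1 : 1 ≤ k := by
    rw [hk]
    exact Nat.div_pos (by omega) (by omega)
  have hpairs := count (univ : Finset (Fin k × Fin k)) (fun ω q l => (D ω).Entangles r X Y q.1 q.2 l)
    (fun q _ => sums_pair hr hL hu.ge hu1 hku hD X Y q.1 q.2)
  rw [card_univ, Fintype.card_prod, Fintype.card_fin] at hpairs
  have hpairs' : k * k * Fintype.card Ω ≤ 8 *
      (univ.filter (fun q : Ω × (Fin k × Fin k) × Fin M =>
        (D q.1).Entangles r X Y q.2.1.1 q.2.1.2 q.2.2)).card := by
    refine hpairs.trans (Nat.mul_le_mul_left _ (card_le_card fun z hz => ?_))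
    rw [mem_filter] at hz
    exact mem_filter.2 ⟨mem_univ _, hz.2.2⟩
  have hn2 : n ^ 2 ≤ 4 * u ^ 2 * (k * k) := by
    have e1 : n < u * (k + 1) := by
      rw [hk]
      exact Nat.lt_mul_div_succ n (by omega)
    have e2 : n ≤ 2 * (k * u) := by nlinarith
    calc n ^ 2 ≤ (2 * (k * u)) ^ 2 := Nat.pow_le_pow_left e2 2
      _ = _ := by ring
  rw [Nat.card_eq_fintype_card, Nat.card_eq_fintype_card, Fintype.card_subtype]
  have hc : 4 * u ^ 2 * 8 = 320000 * L ^ 4 := by
    rw [hu]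
    ring
  calc n ^ 2 * Fintype.card Ω ≤ 4 * u ^ 2 * (k * k) * Fintype.card Ω :=
        Nat.mul_le_mul_right _ hn2
    _ = 4 * u ^ 2 * (k * k * Fintype.card Ω) := by ring
    _ ≤ 4 * u ^ 2 * (8 * _) := Nat.mul_le_mul_left _ hpairs'
    _ = _ := by rw [← mul_assoc, hc]

end Pool.Agent.Q202.AR
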