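import Pool.Agent.Q202.AR.Dist
import Pool.Agent.Q202.AR.Growth

/-!
# A strong direct product theorem for the approximate rank of finding common elements
-/

set_option autoImplicit false

open Finset

namespace Pool.Agent.Q202.AR

variable {u : ℕ}

/-- The averages of `A` form a power series with small coefficients. -/
theorem series {B : ℝ} (A : Finset (Fin u) → Finset (Fin u) → ℝ)
    (hA : ∀ e : ℕ → ℝ, (∀ s, e s ^ 2 = 1) →
      ∑ x : Fin u → Fin 4, ∑ y, D e x y * A (Z x) (Z y) ≤ B * 16 ^ u) :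
    ∃ a : ℕ → ℝ, ∑ s ∈ range (u + 1), |a s| ≤ B ∧ ∀ θ,
      ∑ x : Fin u → Fin 4, ∑ y, wt θ x y * A (Z x) (Z y) =
        16 ^ u * ∑ s ∈ range (u + 1), a s * θ ^ s := by
  have h16 : (0 : ℝ) < 16 ^ u := by positivity
  obtain ⟨t, ht⟩ : ∃ t : Finset (Fin u) → ℝ, t = fun S =>
    (∑ x : Fin u → Fin 4, ∑ y, T S x y * A (Z x) (Z y)) / 16 ^ u := ⟨_, rfl⟩
  obtain ⟨a, ha⟩ : ∃ a : ℕ → ℝ, a = fun s =>
    ∑ S ∈ (univ : Finset (Finset (Fin u))).filter (fun S => S.card = s), t S := ⟨_, rfl⟩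
  have hmaps : ∀ S ∈ (univ : Finset (Finset (Fin u))), S.card ∈ range (u + 1) := by
    intro S _
    have h3 := card_le_univ S
    rw [Fintype.card_fin] at h3
    exact mem_range.2 (by omega)
  have hfib : ∀ g : ℕ → ℝ, ∑ s ∈ range (u + 1), a s * g s =
      ∑ S : Finset (Fin u), g S.card * t S := by
    intro g
    rw [← sum_fiberwise_of_maps_to hmaps]
    refine sum_congr rfl fun s _ => ?_
    rw [ha, sum_mul]
    refine sum_congr rfl fun S hS => ?_
    rw [(mem_filter.1 hS).2, mul_comm]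
  have hswap : ∀ g : ℕ → ℝ, ∑ S : Finset (Fin u), g S.card * t S =
      (∑ x : Fin u → Fin 4, ∑ y, (∑ S : Finset (Fin u), g S.card * T S x y) * A (Z x) (Z y)) /
        16 ^ u := by
    intro g
    rw [ht]
    have e1 : ∀ S : Finset (Fin u), g S.card *
        ((∑ x : Fin u → Fin 4, ∑ y, T S x y * A (Z x) (Z y)) / 16 ^ u) =
        (∑ x : Fin u → Fin 4, ∑ y, g S.card * T S x y * A (Z x) (Z y)) / 16 ^ u := by
      intro S
      rw [mul_div_assoc', mul_sum]
      congr 1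
      refine sum_congr rfl fun x _ => ?_
      rw [mul_sum]
      exact sum_congr rfl fun y _ => by ring
    rw [sum_congr rfl fun S _ => e1 S, ← sum_div]
    congr 1
    rw [sum_comm]
    refine sum_congr rfl fun x _ => ?_
    rw [sum_comm]
    exact sum_congr rfl fun y _ => by rw [sum_mul]
  refine ⟨a, ?_, fun θ => ?_⟩
  · obtain ⟨e, he⟩ : ∃ e : ℕ → ℝ, e = fun s => if 0 ≤ a s then 1 else -1 := ⟨_, rfl⟩
    have h3 : ∀ s, |a s| = a s * e s := by
      intro s
      rw [he]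
      by_cases h : 0 ≤ a s
      · simp only [if_pos h]
        rw [abs_of_nonneg h, mul_one]
      · simp only [if_neg h]
        rw [abs_of_neg (not_le.1 h)]
        ring
    rw [sum_congr rfl fun s _ => h3 s, hfib e, hswap e, div_le_iff₀ h16]
    refine hA e fun s => ?_
    rw [he]
    by_cases h : 0 ≤ a s
    · simp only [if_pos h]
      norm_num
    · simp only [if_neg h]
      norm_num
  · rw [hfib (fun s => θ ^ s), hswap (fun s => θ ^ s), mul_div_cancel₀ _ h16.ne']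
    refine sum_congr rfl fun x _ => sum_congr rfl fun y _ => ?_
    unfold wt
    rw [sum_pow_T]

theorem exp_eight : Real.exp 8 ≤ 20 ^ 8 / 2 ^ 23 := by
  have h1 : Real.exp 8 = Real.exp 1 ^ 8 := by
    rw [← Real.exp_nat_mul]
    norm_num
  have h2 := Real.exp_one_lt_d9
  rw [h1]
  calc Real.exp 1 ^ 8 ≤ 2.7182818286 ^ 8 := pow_le_pow_left₀ (Real.exp_pos _).le h2.le 8
    _ ≤ _ := by norm_num

/-- No matrix of small approximate rank finds many common elements with a probability which is not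
exponentially small. -/
theorem strong {d m : ℕ} {B : ℝ} (A : Finset (Fin u) → Finset (Fin u) → ℝ)
    (hA : ∀ e : ℕ → ℝ, (∀ s, e s ^ 2 = 1) →
      ∑ x : Fin u → Fin 4, ∑ y, D e x y * A (Z x) (Z y) ≤ B * 16 ^ u)
    (h0 : ∀ x y, 0 ≤ A x y) (h1 : ∀ x y, A x y ≤ 1)
    (hz : ∀ x y, (x ∩ y).card < 8 * m → A x y = 0)
    (hσ : ∀ x y, 8 * m ≤ (x ∩ y).card → (x ∩ y).card ≤ 16 * m → (1 / 2) ^ (4 * m + 2) ≤ A x y)
    (hB : B * 2 ^ (23 * m) ≤ 3 ^ (d + 1)) (hm : 2 ≤ m) (hmd : m ≤ d)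
    (hu : 6291456 * d ^ 2 ≤ u * m) : False := by
  have h16 : (0 : ℝ) < 16 ^ u := by positivity
  obtain ⟨a, ha, haF⟩ := series A hA
  obtain ⟨F, hF⟩ : ∃ F : ℝ → ℝ, F = fun θ => ∑ s ∈ range (u + 1), a s * θ ^ s := ⟨_, rfl⟩
  have haF' : ∀ θ, ∑ x : Fin u → Fin 4, ∑ y, wt θ x y * A (Z x) (Z y) = 16 ^ u * F θ := by
    intro θ
    rw [haF, hF]
  have hdu : 6291456 * d ≤ u := by
    refine Nat.le_of_mul_le_mul_right ?_ (by omega : 0 < m)
    calc 6291456 * d * m ≤ 6291456 * d * d := Nat.mul_le_mul_left _ hmd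
      _ = 6291456 * d ^ 2 := by ring
      _ ≤ _ := hu
  have hm2 : (2 : ℝ) ≤ m := by exact_mod_cast hm
  have hm0 : (0 : ℝ) < m := by linarith
  have hdm : (m : ℝ) ≤ d := by exact_mod_cast hmd
  have hduR : 6291456 * (d : ℝ) ≤ u := by exact_mod_cast hdu
  have hu0 : (0 : ℝ) < u := by linarith
  have huR : 6291456 * (d : ℝ) ^ 2 ≤ u * m := by exact_mod_cast hu
  obtain ⟨δ, hδ⟩ : ∃ δ : ℝ, δ = (1 / 2 ^ 23) ^ m := ⟨_, rfl⟩
  have hδ0 : 0 < δ := by
    rw [hδ]
    positivity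
  have hδ1 : δ ≤ 1 := by
    rw [hδ]
    exact pow_le_one₀ (by norm_num) (by norm_num)
  -- the averages
  have hF0 : ∀ θ, -(1 / 3) ≤ θ → θ ≤ 1 / 3 → 0 ≤ F θ := by
    intro θ hθ1 hθ2
    have h3 : 0 ≤ 16 ^ u * F θ := by
      rw [← haF']
      exact sum_nonneg fun x _ => sum_nonneg fun y _ =>
        mul_nonneg (wt_nonneg hθ1 hθ2 x y) (h0 _ _)
    exact nonneg_of_mul_nonneg_right h3 h16
  have hF1 : ∀ θ, -(1 / 3) ≤ θ → θ ≤ 1 / 3 → F θ ≤ 1 := by
    intro θ hθ1 hθ2
    have h3 : 16 ^ u * F θ ≤ 16 ^ u * 1 := by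
      rw [← haF', mul_one, ← sum_wt θ]
      refine sum_le_sum fun x _ => sum_le_sum fun y _ => ?_
      exact mul_le_of_le_one_right (wt_nonneg hθ1 hθ2 x y) (h1 _ _)
    exact le_of_mul_le_mul_left h3 h16
  -- the truncated series
  obtain ⟨P0, hP0⟩ : ∃ P : Polynomial ℝ, P = ∑ s ∈ range (d + 1),
    Polynomial.C (a s) * Polynomial.X ^ s := ⟨_, rfl⟩
  have hev0 : ∀ θ, P0.eval θ = ∑ s ∈ range (d + 1), a s * θ ^ s := by
    intro θ
    rw [hP0, Polynomial.eval_finsetSum]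
    exact sum_congr rfl fun s _ => by simp
  have hdeg0 : P0.natDegree ≤ d := by
    rw [hP0]
    refine Polynomial.natDegree_sum_le_of_forall_le _ _ fun s hs => ?_
    rw [mem_range] at hs
    exact (Polynomial.natDegree_C_mul_X_pow_le _ _).trans (by omega)
  have htail : ∀ θ, |θ| ≤ 1 / 3 → |F θ - P0.eval θ| ≤ δ := by
    intro θ hθ
    rw [hF, hev0]
    show |∑ s ∈ range (u + 1), a s * θ ^ s - ∑ s ∈ range (d + 1), a s * θ ^ s| ≤ δ
    rw [← sum_range_add_sum_Ico _ (by omega : d + 1 ≤ u + 1), add_sub_cancel_left]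
    calc |∑ s ∈ Ico (d + 1) (u + 1), a s * θ ^ s| ≤
        ∑ s ∈ Ico (d + 1) (u + 1), |a s * θ ^ s| := abs_sum_le_sum_abs _ _
      _ ≤ ∑ s ∈ Ico (d + 1) (u + 1), |a s| * (1 / 3) ^ (d + 1) := by
          refine sum_le_sum fun s hs => ?_
          rw [mem_Ico] at hs
          rw [abs_mul, abs_pow]
          refine mul_le_mul_of_nonneg_left ?_ (abs_nonneg _)
          exact (pow_le_pow_left₀ (abs_nonneg _) hθ s).trans
            (pow_le_pow_of_le_one (by norm_num) (by norm_num) hs.1)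
      _ ≤ ∑ s ∈ range (u + 1), |a s| * (1 / 3) ^ (d + 1) := by
          refine sum_le_sum_of_subset_of_nonneg (fun s hs => ?_) fun s _ _ => by positivity
          rw [mem_Ico] at hs
          exact mem_range.2 hs.2
      _ ≤ B * (1 / 3) ^ (d + 1) := by
          rw [← sum_mul]
          exact mul_le_mul_of_nonneg_right ha (by positivity)
      _ ≤ δ := by
          have e1 : δ = 1 / 2 ^ (23 * m) := by
            rw [hδ, one_div_pow, ← pow_mul]
          rw [e1, one_div_pow, mul_one_div, div_le_div_iff₀ (by positivity) (by positivity)]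
          linarith
  -- the change of the variable
  obtain ⟨P, hP⟩ : ∃ P : Polynomial ℝ, P = P0.comp
    (Polynomial.C (128 * (m : ℝ) / (3 * u)) * Polynomial.X - Polynomial.C (1 / 3 : ℝ)) := ⟨_, rfl⟩
  have hev : ∀ l : ℝ, P.eval l = P0.eval (128 * m / (3 * u) * l - 1 / 3) := by
    intro l
    rw [hP]
    simp [Polynomial.eval_comp]
  have hdeg : P.natDegree ≤ d := by
    rw [hP]
    refine Polynomial.natDegree_comp_le.trans ?_
    have h3 : (Polynomial.C (128 * (m : ℝ) / (3 * u)) * Polynomial.X - Polynomial.C (1 / 3 : ℝ) :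
        Polynomial ℝ).natDegree ≤ 1 := by
      refine (Polynomial.natDegree_sub_le _ _).trans ?_
      rw [Polynomial.natDegree_C, max_eq_left (Nat.zero_le _)]
      exact (Polynomial.natDegree_C_mul_le _ _).trans Polynomial.natDegree_X_le
    calc P0.natDegree * _ ≤ P0.natDegree * 1 := Nat.mul_le_mul_left _ h3
      _ ≤ d := by rw [mul_one]; exact hdeg0
  have hθr : ∀ l : ℝ, 0 ≤ l → l ≤ u / (64 * m) → -(1 / 3) ≤ 128 * m / (3 * u) * l - 1 / 3 ∧
      128 * m / (3 * u) * l - 1 / 3 ≤ 1 / 3 := by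
    intro l hl0 hl1
    have h3 : 0 ≤ 128 * m / (3 * u) * l := by positivity
    have h4 : 128 * m / (3 * u) * l ≤ 2 / 3 := by
      calc 128 * m / (3 * u) * l ≤ 128 * m / (3 * u) * (u / (64 * m)) :=
            mul_le_mul_of_nonneg_left hl1 (by positivity)
        _ = 2 / 3 := by
          field_simp
          norm_num
    constructor <;> linarith
  have hπ : ∀ l : ℝ, u * ((1 + 3 * (128 * m / (3 * u) * l - 1 / 3)) / 16) = 8 * m * l := by
    intro l
    field_simp
    ring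
  have hP1 : ∀ l : ℝ, 0 ≤ l → l ≤ u / (64 * m) → |P.eval l| ≤ 2 := by
    intro l hl0 hl1
    obtain ⟨h3, h4⟩ := hθr l hl0 hl1
    have h5 := htail _ (abs_le.2 ⟨h3, h4⟩)
    have h6 := hF0 _ h3 h4
    have h7 := hF1 _ h3 h4
    rw [hev]
    rw [abs_le] at h5 ⊢
    constructor <;> linarith [h5.1, h5.2]
  have hΛ : (3 : ℝ) / 2 ≤ u / (64 * m) := by
    rw [le_div_iff₀ (by positivity)]
    linarith
  have hk : 8 * m ≤ u := by omega
  have hP2 : ∀ l : ℝ, 0 ≤ l → l ≤ 1 / 20 → |P.eval l| ≤ 2 * δ := by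
    intro l hl0 hl1
    obtain ⟨h3, h4⟩ := hθr l hl0 (by linarith)
    have h5 := htail _ (abs_le.2 ⟨h3, h4⟩)
    have h6 := hF0 _ h3 h4
    have h7 : F (128 * m / (3 * u) * l - 1 / 3) ≤ δ := by
      obtain ⟨θ, hθ⟩ : ∃ θ : ℝ, θ = 128 * m / (3 * u) * l - 1 / 3 := ⟨_, rfl⟩
      have hπ' := hπ l
      rw [← hθ] at h3 h4 hπ' ⊢
      have h8 : 16 ^ u * F θ ≤ u.choose (8 * m) * ((1 + 3 * θ) ^ (8 * m) * 16 ^ (u - 8 * m)) := by
        rw [← haF', ← sum_wt_choose]
        refine sum_le_sum fun x _ => sum_le_sum fun y _ => ?_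
        refine mul_le_mul_of_nonneg_left ?_ (wt_nonneg h3 h4 x y)
        rcases lt_or_ge (Z x ∩ Z y).card (8 * m) with h9 | h9
        · rw [hz _ _ h9]
          exact Nat.cast_nonneg _
        · refine (h1 _ _).trans ?_
          have : 1 ≤ (Z x ∩ Z y).card.choose (8 * m) := Nat.choose_pos h9
          exact_mod_cast this
      have h9 : (1 + 3 * θ) ^ (8 * m) * 16 ^ (u - 8 * m) =
          16 ^ u * ((1 + 3 * θ) / 16) ^ (8 * m) := by
        have e1 : (16 : ℝ) ^ u = 16 ^ (8 * m) * 16 ^ (u - 8 * m) := by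
          rw [← pow_add]
          congr 1
          omega
        rw [e1, div_pow]
        field_simp
      have h10 : (u.choose (8 * m) : ℝ) * ((1 + 3 * θ) / 16) ^ (8 * m) ≤ δ := by
        have hp0 : 0 ≤ (1 + 3 * θ) / 16 := by linarith
        calc (u.choose (8 * m) : ℝ) * ((1 + 3 * θ) / 16) ^ (8 * m) ≤
              (u : ℝ) ^ (8 * m) / (8 * m).factorial * ((1 + 3 * θ) / 16) ^ (8 * m) :=
              mul_le_mul_of_nonneg_right (Nat.choose_le_pow_div _ _) (by positivity)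
          _ = (8 * m * l) ^ (8 * m) / (8 * m).factorial := by
              rw [← hπ', mul_pow]
              ring
          _ ≤ (8 * m * (1 / 20)) ^ (8 * m) / (8 * m).factorial := by
              refine div_le_div_of_nonneg_right ?_ (by positivity)
              exact pow_le_pow_left₀ (by positivity)
                (mul_le_mul_of_nonneg_left hl1 (by positivity)) _
          _ = (1 / 20) ^ (8 * m) * ((8 * m) ^ (8 * m) / (8 * m).factorial) := by
              rw [mul_pow]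
              ring
          _ ≤ (1 / 20) ^ (8 * m) * Real.exp (8 * m) := by
              refine mul_le_mul_of_nonneg_left ?_ (by positivity)
              have := Real.pow_div_factorial_le_exp (x := 8 * (m : ℝ)) (by positivity) (8 * m)
              exact this
          _ = ((1 / 20) ^ 8 * Real.exp 8) ^ m := by
              rw [mul_pow, ← pow_mul, ← Real.exp_nat_mul]
              congr 2
              ring
          _ ≤ δ := by
              rw [hδ]
              refine pow_le_pow_left₀ (by positivity) ?_ m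
              calc (1 / 20 : ℝ) ^ 8 * Real.exp 8 ≤ (1 / 20) ^ 8 * (20 ^ 8 / 2 ^ 23) :=
                    mul_le_mul_of_nonneg_left exp_eight (by positivity)
                _ = _ := by norm_num
      rw [h9] at h8
      refine le_of_mul_le_mul_left ?_ h16
      refine h8.trans ?_
      calc (u.choose (8 * m) : ℝ) * (16 ^ u * ((1 + 3 * θ) / 16) ^ (8 * m)) =
            16 ^ u * ((u.choose (8 * m) : ℝ) * ((1 + 3 * θ) / 16) ^ (8 * m)) := by ring
        _ ≤ _ := mul_le_mul_of_nonneg_left h10 h16.le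
    rw [hev]
    rw [abs_le] at h5 ⊢
    constructor <;> linarith [h5.1, h5.2]
  -- the lower bound
  have hlow : (1 / 2) ^ (4 * m + 3) - δ ≤ P.eval (3 / 2) := by
    obtain ⟨h3, h4⟩ := hθr (3 / 2) (by norm_num) hΛ
    have h5 := htail _ (abs_le.2 ⟨h3, h4⟩)
    have hπ' := hπ (3 / 2)
    rw [hev]
    obtain ⟨θ, hθ⟩ : ∃ θ : ℝ, θ = 128 * m / (3 * u) * (3 / 2) - 1 / 3 := ⟨_, rfl⟩
    rw [← hθ] at h3 h4 h5 hπ' ⊢
    have hvar := sum_wt_var (u := u) θ
    rw [hπ'] at hvar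
    have h6 : (1 / 2) ^ (4 * m + 2) * (16 ^ u - 16 ^ u * (8 * m * (3 / 2) *
        (1 - (1 + 3 * θ) / 16)) / (16 * (m : ℝ) ^ 2)) ≤ 16 ^ u * F θ := by
      rw [← hvar, ← haF', ← sum_wt θ, sum_div, ← sum_sub_distrib, mul_sum]
      refine sum_le_sum fun x _ => ?_
      rw [sum_div, ← sum_sub_distrib, mul_sum]
      refine sum_le_sum fun y _ => ?_
      have hw := wt_nonneg h3 h4 x y
      have e1 : (1 / 2) ^ (4 * m + 2) * (wt θ x y - wt θ x y *
          (8 * m * (3 / 2) - ((Z x ∩ Z y).card : ℝ)) ^ 2 / (16 * (m : ℝ) ^ 2)) =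
          wt θ x y * ((1 / 2) ^ (4 * m + 2) * (1 -
            (8 * m * (3 / 2) - ((Z x ∩ Z y).card : ℝ)) ^ 2 / (16 * (m : ℝ) ^ 2))) := by ring
      rw [e1]
      refine mul_le_mul_of_nonneg_left ?_ hw
      have hp : (0 : ℝ) < (1 / 2) ^ (4 * m + 2) := by positivity
      have hq : 0 ≤ (8 * m * (3 / 2) - ((Z x ∩ Z y).card : ℝ)) ^ 2 / (16 * (m : ℝ) ^ 2) := by
        positivity
      by_cases h7 : 8 * m ≤ (Z x ∩ Z y).card ∧ (Z x ∩ Z y).card ≤ 16 * m
      · refine le_trans ?_ (hσ _ _ h7.1 h7.2)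
        nlinarith
      · refine le_trans ?_ (h0 _ _)
        have h8 : 1 ≤ (8 * m * (3 / 2) - ((Z x ∩ Z y).card : ℝ)) ^ 2 / (16 * (m : ℝ) ^ 2) := by
          rw [le_div_iff₀ (by positivity), one_mul]
          have h9 : (4 * (m : ℝ)) ≤ |8 * m * (3 / 2) - ((Z x ∩ Z y).card : ℝ)| := by
            rcases lt_or_ge (Z x ∩ Z y).card (8 * m) with h10 | h10
            · have : ((Z x ∩ Z y).card : ℝ) ≤ 8 * m := by exact_mod_cast h10.le
              exact le_trans (by linarith) (le_abs_self _)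
            · have h11 : 16 * m < (Z x ∩ Z y).card := by
                by_contra hcon
                exact h7 ⟨h10, by omega⟩
              have : 16 * (m : ℝ) ≤ ((Z x ∩ Z y).card : ℝ) := by exact_mod_cast h11.le
              exact le_trans (by linarith) (neg_le_abs _)
          have h10 := pow_le_pow_left₀ (by positivity) h9 2
          rw [sq_abs] at h10
          linarith
        nlinarith
    have h7 : (5 : ℝ) / 8 ≤ 1 - (8 * m * (3 / 2) * (1 - (1 + 3 * θ) / 16)) / (16 * (m : ℝ) ^ 2) := by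
      have h8 : (8 * m * (3 / 2) * (1 - (1 + 3 * θ) / 16)) / (16 * (m : ℝ) ^ 2) ≤ 3 / 8 := by
        rw [div_le_iff₀ (by positivity)]
        have h9 : 1 - (1 + 3 * θ) / 16 ≤ 1 := by linarith
        have h10 : 8 * m * (3 / 2) * (1 - (1 + 3 * θ) / 16) ≤ 8 * m * (3 / 2) * 1 :=
          mul_le_mul_of_nonneg_left h9 (by positivity)
        nlinarith
      linarith
    have h8 : (1 / 2) ^ (4 * m + 3) ≤ F θ := by
      refine le_of_mul_le_mul_left ?_ h16
      refine le_trans ?_ h6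
      have e1 : (1 / 2 : ℝ) ^ (4 * m + 2) * (16 ^ u - 16 ^ u * (8 * m * (3 / 2) *
          (1 - (1 + 3 * θ) / 16)) / (16 * (m : ℝ) ^ 2)) = 16 ^ u * ((1 / 2) ^ (4 * m + 2) *
            (1 - (8 * m * (3 / 2) * (1 - (1 + 3 * θ) / 16)) / (16 * (m : ℝ) ^ 2))) := by ring
      rw [e1]
      refine mul_le_mul_of_nonneg_left ?_ h16.le
      have e2 : (1 / 2 : ℝ) ^ (4 * m + 3) = (1 / 2) ^ (4 * m + 2) * (1 / 2) := pow_succ _ _
      rw [e2]
      refine mul_le_mul_of_nonneg_left ?_ (by positivity)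
      linarith
    rw [abs_le] at h5
    linarith [h5.1, h5.2]
  -- the extrapolation
  have hx := extrapolate (m := m) (by omega) hdeg (B := 2) (ε := 2 * δ) (Λ := u / (64 * m))
    (l0 := 1 / 20) (l1 := 3 / 2) (by norm_num) (by positivity) (by norm_num) (by norm_num) hΛ hP1
    hP2 (by
      have e1 : 4 * (d : ℝ) ^ 2 / (u / (64 * m)) * (3 / 2) = 384 * (d : ℝ) ^ 2 * m / u := by
        field_simp
        ring
      rw [e1, div_pow, div_le_div_iff₀ hu0 (by norm_num)]
      nlinarith)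
  have e1 : (1 / 20 / (3 / 2) : ℝ) = 1 / 30 := by norm_num
  have e2 : (4 * (3 / 2) / (1 / 20) : ℝ) = 120 := by norm_num
  rw [e1, e2, add_mul] at hx
  obtain ⟨v, hv⟩ : ∃ v : ℝ, v = (1 / 2 ^ 11) ^ m := ⟨_, rfl⟩
  have h5 : 2 * δ * 120 ^ m ≤ 2 * v := by
    have : δ * 120 ^ m ≤ v := by
      rw [hδ, hv, ← mul_pow]
      exact pow_le_pow_left₀ (by norm_num) (by norm_num) m
    linarith
  have h6 : 2 * (1 / 2 ^ 13 : ℝ) ^ m * (1 / 30) ^ m * 120 ^ m ≤ 2 * v := by
    have : (1 / 2 ^ 13 : ℝ) ^ m * (1 / 30) ^ m * 120 ^ m ≤ v := by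
      rw [hv, ← mul_pow, ← mul_pow]
      exact pow_le_pow_left₀ (by norm_num) (by norm_num) m
    linarith
  have h7 : 2 * (1 / 2 ^ 13 : ℝ) ^ m ≤ 2 * v := by
    have : (1 / 2 ^ 13 : ℝ) ^ m ≤ v := by
      rw [hv]
      exact pow_le_pow_left₀ (by norm_num) (by norm_num) m
    linarith
  have h8 : δ ≤ v := by
    rw [hδ, hv]
    exact pow_le_pow_left₀ (by norm_num) (by norm_num) m
  have h9 := (le_abs_self _).trans hx
  have h10 : (1 / 2 : ℝ) ^ (4 * m + 3) ≤ 7 * v := by linarith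
  have h11 : v = (1 / 2) ^ (4 * m) * (1 / 2 ^ 7) ^ m := by
    rw [hv, pow_mul, ← mul_pow]
    norm_num
  have h12 : (1 / 2 ^ 7 : ℝ) ^ m ≤ (1 / 2 ^ 7) ^ 2 :=
    pow_le_pow_of_le_one (by norm_num) (by norm_num) hm
  have h13 : (0 : ℝ) < (1 / 2) ^ (4 * m) := by positivity
  have h14 : (1 / 2 : ℝ) ^ (4 * m + 3) = (1 / 2) ^ (4 * m) * (1 / 8) := by
    rw [pow_add]
    norm_num
  rw [h14, h11] at h10
  nlinarith

end Pool.Agent.Q202.AR
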